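import Pool.Agent.N183.TS.Main

/-!
# Tate classes which are invariant under a finite group
-/

set_option autoImplicit false

namespace Pool.Agent.U188.AvgTate

open Module Pool.Agent.Y90 Pool.Agent.R915 Pool.Agent.W547.KB Pool.Agent.W547.UB
  Pool.Agent.N183.TS TensorProduct

/-- the average of a form over a finite group -/
noncomputable def avg {X : AV} (G : Subgroup (X.H ≃ₗ[ℚ] X.H)) [Fintype G] {κ : Type}
    (f : X.H [⋀^κ]→ₗ[ℚ] ℚ) : X.H [⋀^κ]→ₗ[ℚ] ℚ :=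
  ((Fintype.card G : ℚ)⁻¹) • ∑ g : G, f.compLinearMap (g.1 : X.H →ₗ[ℚ] X.H)

theorem alg_sum (𝒜 : Sys) {X : AV} {κ ι : Type} (S : Finset ι) (f : ι → X.H [⋀^κ]→ₗ[ℚ] ℚ)
    (h : ∀ i ∈ S, 𝒜.A X κ (f i)) : 𝒜.A X κ (∑ i ∈ S, f i) := by
  classical
  induction S using Finset.induction_on with
  | empty =>
    rw [Finset.sum_empty]
    exact 𝒜.zero X κ
  | insert i T hi ih =>
    rw [Finset.sum_insert hi]
    exact 𝒜.add _ _ (h i (Finset.mem_insert_self i T))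
      (ih fun j hj => h j (Finset.mem_insert_of_mem hj))

theorem alg_avg (𝒜 : Sys) {X : AV} (G : Subgroup (X.H ≃ₗ[ℚ] X.H)) [Fintype G]
    (hG : ∀ g ∈ G, IsHom X X (g : X.H →ₗ[ℚ] X.H)) {κ : Type} {f : X.H [⋀^κ]→ₗ[ℚ] ℚ}
    (h : 𝒜.A X κ f) : 𝒜.A X κ (avg G f) :=
  𝒜.smul _ _ (alg_sum 𝒜 _ _ fun g _ => 𝒜.pull _ (hG g.1 g.2) f h)

theorem sum_apply' {X : AV} {κ ι : Type} (S : Finset ι) (f : ι → X.H [⋀^κ]→ₗ[ℚ] ℚ)
    (v : κ → X.H) : (∑ i ∈ S, f i) v = ∑ i ∈ S, f i v := by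
  classical
  induction S using Finset.induction_on with
  | empty =>
    rw [Finset.sum_empty, Finset.sum_empty]
    rfl
  | insert i T hi ih =>
    rw [Finset.sum_insert hi, Finset.sum_insert hi, AlternatingMap.add_apply, ih]

theorem avg_apply {X : AV} (G : Subgroup (X.H ≃ₗ[ℚ] X.H)) [Fintype G] {κ : Type}
    (f : X.H [⋀^κ]→ₗ[ℚ] ℚ) (v : κ → X.H) :
    avg G f v = (Fintype.card G : ℚ)⁻¹ * ∑ g : G, f (fun k => g.1 (v k)) := by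
  unfold avg
  rw [AlternatingMap.smul_apply, sum_apply', smul_eq_mul]
  rfl

theorem avg_inv {X : AV} (G : Subgroup (X.H ≃ₗ[ℚ] X.H)) [Fintype G] {κ : Type}
    (f : X.H [⋀^κ]→ₗ[ℚ] ℚ) {g : X.H ≃ₗ[ℚ] X.H} (hg : g ∈ G) (v : κ → X.H) :
    avg G f (fun k => g (v k)) = avg G f v := by
  rw [avg_apply, avg_apply]
  congr 1
  refine Fintype.sum_equiv (Equiv.mulRight (⟨g, hg⟩ : G)) _ _ fun a => ?_
  rfl

/-- **Tate classes** on quotients. -/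
theorem tate_inv {K : Type} [Field K] [CharZero K] [Algebra K ℂ] [Algebra.IsAlgebraic K ℂ]
    {Γ : Type} [Group Γ] (𝒜 : Sys) (X : AV)
    (hX : ∀ Y, IsFactor Y X → finrank ℚ Y.H ≤ 6 ∨ HasCMult Y ∨ QuadMult Y ∨ RealOdd Y)
    (C : CMAV) {J : Type} (b : C.I → J) (hC : IndependentBlocks C b)
    (h1 : ∀ Y, IsFactor Y X → HasCMult Y → ∃ i, IsOfType Y (C.factor i))
    (h2 : ∀ (Y E : AV) (d : ℚ), IsFactor Y X → ¬ HasCMult Y → Unbalanced Y d →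
      finrank ℚ E.H = 2 → Unbalanced E d → ∃ i, IsOfType E (C.factor i))
    {E : X.H → X.H → ℚ} (hE : Pool.Agent.Y90.St.IsPolarization X.per E)
    {ρ : Representation K Γ (K ⊗[ℚ] X.H)} {χ : Γ →* K}
    (hρ : Pool.Agent.Y224.TS.St.IsTateModule X.per E ρ χ)
    (G : Subgroup (X.H ≃ₗ[ℚ] X.H)) [Finite G]
    (hG : ∀ g ∈ G, IsHom X X (g : X.H →ₗ[ℚ] X.H))
    {κ : Type} [Finite κ] {m : ℕ} (hκ : Nat.card κ = 2 * m)
    (φ : (K ⊗[ℚ] X.H) [⋀^κ]→ₗ[K] K)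
    (hφ : ∃ Δ : Subgroup Γ, Δ.FiniteIndex ∧ ∀ g ∈ Δ, ∀ v : κ → K ⊗[ℚ] X.H,
      φ (fun k => ρ g (v k)) = χ g ^ m * φ v)
    (hinv : ∀ g ∈ G, ∀ v : κ → X.H, φ (fun k => (1 : K) ⊗ₜ[ℚ] g (v k)) =
      φ (fun k => (1 : K) ⊗ₜ[ℚ] v k)) :
    ∃ (n : ℕ) (c : Fin n → K) (f : Fin n → (X.H [⋀^κ]→ₗ[ℚ] ℚ)),
      (∀ j, 𝒜.A X κ (f j)) ∧ (∀ j, ∀ g ∈ G, ∀ v : κ → X.H, f j (fun k => g (v k)) = f j v) ∧
        ∀ v : κ → X.H, φ (fun k => (1 : K) ⊗ₜ[ℚ] v k) = ∑ j, c j * ((f j v : ℚ) : K) := by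
  classical
  let _ : Fintype G := Fintype.ofFinite G
  obtain ⟨n, c, f, hf, h⟩ := tate_all 𝒜 X hX C b hC h1 h2 hE hρ hκ φ hφ
  refine ⟨n, c, fun j => avg G (f j), fun j => alg_avg 𝒜 G hG (hf j),
    fun j g hg v => avg_inv G (f j) hg v, fun v => ?_⟩
  have hcard : ((Fintype.card G : ℕ) : K) ≠ 0 := by
    exact_mod_cast Fintype.card_ne_zero
  have h3 : ∑ g : G, φ (fun k => (1 : K) ⊗ₜ[ℚ] g.1 (v k)) =
      (Fintype.card G : K) * φ (fun k => (1 : K) ⊗ₜ[ℚ] v k) := by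
    rw [Finset.sum_congr rfl fun g _ => hinv g.1 g.2 v, Finset.sum_const, Finset.card_univ,
      nsmul_eq_mul]
  calc φ (fun k => (1 : K) ⊗ₜ[ℚ] v k) = (Fintype.card G : K)⁻¹ *
        ∑ g : G, φ (fun k => (1 : K) ⊗ₜ[ℚ] g.1 (v k)) := by
        rw [h3, ← mul_assoc, inv_mul_cancel₀ hcard, one_mul]
    _ = (Fintype.card G : K)⁻¹ * ∑ g : G, ∑ j, c j * ((f j (fun k => g.1 (v k)) : ℚ) : K) := by
        congr 1
        exact Finset.sum_congr rfl fun g _ => h _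
    _ = ∑ j, c j * ((avg G (f j) v : ℚ) : K) := by
        rw [Finset.sum_comm, Finset.mul_sum]
        refine Finset.sum_congr rfl fun j _ => ?_
        rw [avg_apply]
        push_cast
        rw [Finset.mul_sum, Finset.mul_sum, Finset.mul_sum]
        exact Finset.sum_congr rfl fun g _ => by ring

end Pool.Agent.U188.AvgTate
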