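import Mathlib

/-!
Piecewise linear functions on fans: elementary lemmas for toroidal log canonical pairs.
-/

set_option autoImplicit false

namespace Pool.Agent.U188.Fans

variable {r : ℕ}

/-- the vector is in the cone generated by the vectors in `σ` -/
def InC (σ : Finset (Fin r → ℕ)) (v : Fin r → ℕ) : Prop :=
  ∃ w : (Fin r → ℕ) → ℚ, (∀ s, 0 ≤ w s) ∧ ∀ k, (v k : ℚ) = ∑ s ∈ σ, w s * s k

/-- the function `1 - c` is linear on the cones of a fan which covers the vectors in `A` -/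
structure PL (A : (Fin r → ℕ) → Prop) (S : Finset (Finset (Fin r → ℕ)))
    (c : (Fin r → ℕ) → ℚ) : Prop where
  adm : ∀ σ ∈ S, ∀ s ∈ σ, A s
  cover : ∀ v, A v → ∃ σ ∈ S, InC σ v
  lin : ∀ σ ∈ S, ∃ u : Fin r → ℚ, ∀ v, A v → InC σ v → 1 - c v = ∑ k, u k * v k

variable {A : (Fin r → ℕ) → Prop} {S : Finset (Finset (Fin r → ℕ))} {c : (Fin r → ℕ) → ℚ}

theorem inC_mem {σ : Finset (Fin r → ℕ)} {s : Fin r → ℕ} (hs : s ∈ σ) : InC σ s := by
  classical
  refine ⟨fun t => if t = s then 1 else 0, fun t => by dsimp only; split_ifs <;> norm_num,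
    fun k => ?_⟩
  rw [Finset.sum_eq_single s]
  · dsimp only
    rw [if_pos rfl, one_mul]
  · intro t _ ht
    dsimp only
    rw [if_neg ht, zero_mul]
  · intro h
    exact absurd hs h

theorem inC_smul {σ : Finset (Fin r → ℕ)} {v : Fin r → ℕ} (h : InC σ v) (k : ℕ) :
    InC σ (k • v) := by
  obtain ⟨w, hw, hwv⟩ := h
  refine ⟨fun s => k * w s, fun s => mul_nonneg (by positivity) (hw s), fun j => ?_⟩
  simp only [Pi.smul_apply, smul_eq_mul]
  push_cast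
  rw [hwv j, Finset.mul_sum]
  exact Finset.sum_congr rfl fun s _ => by ring

theorem PL.mul (h : PL A S c) (hA : ∀ v (k : ℕ), 1 ≤ k → A v → A (k • v)) (v : Fin r → ℕ) (k : ℕ)
    (hk : 1 ≤ k) (hv : A v) : 1 - c (k • v) = k * (1 - c v) := by
  obtain ⟨σ, hσ, hvσ⟩ := h.cover v hv
  obtain ⟨u, hu⟩ := h.lin σ hσ
  rw [hu v hv hvσ, hu (k • v) (hA v k hk hv) (inC_smul hvσ k), Finset.mul_sum]
  refine Finset.sum_congr rfl fun j _ => ?_
  simp only [Pi.smul_apply, smul_eq_mul]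
  push_cast
  ring

/-- the values at the generators determine the function -/
theorem PL.gen (h : PL A S c) {v : Fin r → ℕ} (hv : A v) :
    ∃ σ ∈ S, ∃ w : (Fin r → ℕ) → ℚ, (∀ s, 0 ≤ w s) ∧ (∀ k, (v k : ℚ) = ∑ s ∈ σ, w s * s k) ∧
      1 - c v = ∑ s ∈ σ, w s * (1 - c s) := by
  obtain ⟨σ, hσ, w, hw, hwv⟩ := h.cover v hv
  obtain ⟨u, hu⟩ := h.lin σ hσ
  refine ⟨σ, hσ, w, hw, hwv, ?_⟩
  rw [hu v hv ⟨w, hw, hwv⟩]
  have h1 : ∀ s ∈ σ, w s * (1 - c s) = ∑ k, u k * (w s * s k) := by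
    intro s hs
    rw [hu s (h.adm σ hσ s hs) (inC_mem hs), Finset.mul_sum]
    exact Finset.sum_congr rfl fun k _ => by ring
  rw [Finset.sum_congr rfl h1, Finset.sum_comm]
  refine Finset.sum_congr rfl fun k _ => ?_
  rw [hwv k, Finset.mul_sum]

theorem PL.le_one (h : PL A S c) (h1 : ∀ σ ∈ S, ∀ s ∈ σ, c s ≤ 1) {v : Fin r → ℕ} (hv : A v) :
    c v ≤ 1 := by
  obtain ⟨σ, hσ, w, hw, -, hc⟩ := h.gen hv
  have h2 : 0 ≤ ∑ s ∈ σ, w s * (1 - c s) := Finset.sum_nonneg fun s hs =>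
    mul_nonneg (hw s) (by linarith [h1 σ hσ s hs])
  linarith

theorem PL.fg (h : PL A S c) : ∃ T : Finset (Fin r → ℕ), (∀ s ∈ T, A s) ∧ ∀ v, A v →
    ∃ w : (Fin r → ℕ) → ℚ, (∀ s, 0 ≤ w s) ∧ (∀ k, ∑ s ∈ T, w s * s k ≤ v k) ∧
      1 - c v ≤ ∑ s ∈ T, w s * (1 - c s) := by
  classical
  refine ⟨S.biUnion id, fun s hs => ?_, fun v hv => ?_⟩
  · obtain ⟨σ, hσ, hsσ⟩ := Finset.mem_biUnion.1 hs
    exact h.adm σ hσ s hsσ
  · obtain ⟨σ, hσ, w, hw, hwv, hc⟩ := h.gen hv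
    have hsub : σ ⊆ S.biUnion id := fun s hs => Finset.mem_biUnion.2 ⟨σ, hσ, hs⟩
    have hsum : ∀ f : (Fin r → ℕ) → ℚ, ∑ s ∈ S.biUnion id, (if s ∈ σ then w s else 0) * f s =
        ∑ s ∈ σ, w s * f s := by
      intro f
      rw [← Finset.sum_subset hsub]
      · exact Finset.sum_congr rfl fun s hs => by rw [if_pos hs]
      · intro s _ hs
        rw [if_neg hs, zero_mul]
    refine ⟨fun s => if s ∈ σ then w s else 0, fun s => ?_, fun k => ?_, ?_⟩
    · dsimp only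
      split_ifs
      · exact hw s
      · exact le_rfl
    · rw [hsum fun s => (s k : ℚ), hwv k]
    · dsimp only
      rw [hsum fun s => 1 - c s, hc]

/-- a linear inequality need only be checked at the generators -/
theorem PL.le_iff (h : PL A S c) (q : Fin r → ℚ) :
    (∀ v, A v → 1 - c v ≤ ∑ i, q i * v i) ↔
      ∀ σ ∈ S, ∀ s ∈ σ, 1 - c s ≤ ∑ i, q i * (s i : ℚ) := by
  constructor
  · intro h1 σ hσ s hs
    exact h1 s (h.adm σ hσ s hs)
  · intro h1 v hv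
    obtain ⟨σ, hσ, w, hw, hwv, hc⟩ := h.gen hv
    rw [hc]
    have h2 : ∑ i, q i * (v i : ℚ) = ∑ s ∈ σ, w s * ∑ i, q i * (s i : ℚ) := by
      simp only [hwv, Finset.mul_sum]
      rw [Finset.sum_comm]
      exact Finset.sum_congr rfl fun s _ => Finset.sum_congr rfl fun k _ => by ring
    rw [h2]
    exact Finset.sum_le_sum fun s hs => mul_le_mul_of_nonneg_left (h1 σ hσ s hs) (hw s)

/-- the coordinates which vanish at all vectors with equality -/
theorem PL.eq_iff (h : PL A S c) (q : Fin r → ℚ)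
    (hle : ∀ v, A v → 1 - c v ≤ ∑ i, q i * v i) (i : Fin r) :
    (∀ v, A v → ∑ i, q i * (v i : ℚ) = 1 - c v → v i = 0) ↔
      ∀ σ ∈ S, ∀ s ∈ σ, ∑ i, q i * (s i : ℚ) = 1 - c s → s i = 0 := by
  constructor
  · intro h1 σ hσ s hs
    exact h1 s (h.adm σ hσ s hs)
  · intro h1 v hv heq
    obtain ⟨σ, hσ, w, hw, hwv, hc⟩ := h.gen hv
    have h2 : ∑ i, q i * (v i : ℚ) = ∑ s ∈ σ, w s * ∑ i, q i * (s i : ℚ) := by
      simp only [hwv, Finset.mul_sum]
      rw [Finset.sum_comm]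
      exact Finset.sum_congr rfl fun s _ => Finset.sum_congr rfl fun k _ => by ring
    have h3 : ∑ s ∈ σ, w s * (∑ i, q i * (s i : ℚ) - (1 - c s)) = 0 := by
      simp only [mul_sub, Finset.sum_sub_distrib] at *
      linarith
    have h4 := (Finset.sum_eq_zero_iff_of_nonneg fun s hs => mul_nonneg (hw s)
      (sub_nonneg.2 (hle s (h.adm σ hσ s hs)))).1 h3
    have h5 : (v i : ℚ) = 0 := by
      rw [hwv i]
      refine Finset.sum_eq_zero fun s hs => ?_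
      rcases mul_eq_zero.1 (h4 s hs) with h6 | h6
      · rw [h6, zero_mul]
      · rw [h1 σ hσ s hs (by linarith), Nat.cast_zero, mul_zero]
    exact_mod_cast h5

end Pool.Agent.U188.Fans
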