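import Pool.Agent.U188.Fans
import Pool.Agent.Q57.TQ.Mak
import Pool.Agent.Q57.FT.Top

/-!
Toroidal log canonical pairs on covers of products of projective spaces.
-/

set_option autoImplicit false
set_option linter.overlappingInstances false
set_option linter.unusedSectionVars false
set_option maxHeartbeats 1000000

open FF MvPolynomial Pool.Agent.W603.LV Pool.Agent.W602.GT Pool.Agent.W602.Cov
open Pool.Agent.TH756.PR Pool.Agent.TH122.AB Pool.Agent.TH756.PN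
open Pool.Agent.Y169.CH Pool.Agent.Q57.TP Pool.Agent.Q57.TQ Pool.Agent.Q57.GH

namespace Pool.Agent.U188.LcProd

variable {r N R : ℕ} {n : Fin r → ℕ} {K : Type} [Field K] [Algebra ℂ K]

theorem adm_smul {m : Fin R → ℕ} {a : Fin R → Fin r → ℕ} (v : Fin r → ℕ) (k : ℕ) (hk : 1 ≤ k)
    (hv : Adm m a v) : Adm m a (k • v) := by
  refine ⟨fun h0 => hv.1 (funext fun i => ?_), fun j => ?_⟩
  · have h1 := congrFun h0 i
    simp only [Pi.smul_apply, smul_eq_mul, Pi.zero_apply, Nat.mul_eq_zero] at h1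
    rcases h1 with h1 | h1
    · omega
    · exact h1
  · have h1 : ∑ i, a j i * (k • v) i = k * ∑ i, a j i * v i := by
      rw [Finset.mul_sum]
      refine Finset.sum_congr rfl fun i _ => ?_
      simp only [Pi.smul_apply, smul_eq_mul]
      ring
    rw [h1]
    exact Dvd.dvd.mul_left (hv.2 j) k

/-- **Weak abundance for toroidal log canonical pairs.** -/
theorem main (hr : 1 ≤ r) (hn : ∀ i, 1 ≤ n i) (hN : N = ∑ i, n i)
    {F : ∀ i, MvPolynomial (Fin (n i + 1)) ℂ} {d : Fin r → ℕ} (hd : ∀ i, 1 ≤ d i)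
    (hh : ∀ i, (F i).IsHomogeneous (d i)) (hs : ∀ i, SmF (F i))
    {x : ∀ i, Fin (n i + 1) → K} (hx0 : ∀ i, x i 0 ≠ 0)
    (hbas : IsTranscendenceBasis ℂ (aff x)) {m : Fin R → ℕ} (hm : ∀ j, 0 < m j)
    {a : Fin R → Fin r → ℕ} (hdiv : ∀ j i, m j ∣ a j i * d i) {z : Fin R → K}
    (hz : ∀ j, z j ^ m j = ∏ i, (aeval (x i) (F i) / x i 0 ^ d i) ^ a j i)
    (hgen : IntermediateField.adjoin ℂ (Set.range (aff x) ∪ Set.range z) = ⊤)
    {S : Finset (Finset (Fin r → ℕ))} {c : (Fin r → ℕ) → ℚ} (hc0 : c 0 = 0)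
    (hS : Fans.PL (Adm m a) S c) (hlc : ∀ σ ∈ S, ∀ s ∈ σ, c s ≤ 1)
    {δ : Place ℂ K → ℚ} (hδ : ∀ P, δ P = c (mulQ F d x P))
    (I : Finset (Fin r)) (hI : ∀ i, i ∈ I ↔ ∀ σ ∈ S, ∀ s ∈ σ,
      ∑ i, (((d i : ℚ) - n i - 1) / d i) * (s i : ℚ) = 1 - c s → s i = 0) :
    (BPsef N δ ↔ ∀ σ ∈ S, ∀ s ∈ σ, 1 - c s ≤ ∑ i, (((d i : ℚ) - n i - 1) / d i) * (s i : ℚ)) ∧
    (BKod N δ 0 ↔ ∀ σ ∈ S, ∀ s ∈ σ, 1 - c s ≤ ∑ i, (((d i : ℚ) - n i - 1) / d i) * (s i : ℚ)) ∧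
    ((∀ σ ∈ S, ∀ s ∈ σ, 1 - c s ≤ ∑ i, (((d i : ℚ) - n i - 1) / d i) * (s i : ℚ)) →
      BKod N δ (∑ i ∈ I, n i) ∧ BNum N δ (∑ i ∈ I, n i)) := by
  classical
  -- the multiplicities are admissible
  have hadm : ∀ P : Place ℂ K, mulQ F d x P = 0 ∨ Adm m a (mulQ F d x P) := by
    obtain ⟨N', e, Φ, C, x', F', hN', hΦ, hCM, hCa, H, hvv, -⟩ :=
      Pool.Agent.Q57.FT.setup (N := N) hr hn hN hd hh hs hx0 hbas hm hdiv hz hgen
    intro P
    obtain ⟨α, l, v, hdat⟩ := H.exists_dat P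
    have h1 := hvv P v (hdat.multH H)
    by_cases hv : v = 0
    · left
      rw [← h1, hv]
    · right
      have h2 := hdat.adm H hv
      rw [hCM, hCa, h1] at h2
      exact h2
  -- the function is changed at the vectors which are not admissible
  obtain ⟨c', hc'⟩ : ∃ c' : (Fin r → ℕ) → ℚ, c' = fun v => if Adm m a v then c v else 0 :=
    ⟨_, rfl⟩
  have hcA : ∀ v, Adm m a v → c' v = c v := fun v hv => by
    rw [hc']
    exact if_pos hv
  have hS' : Fans.PL (Adm m a) S c' := ⟨hS.adm, hS.cover, fun σ hσ => by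
    obtain ⟨u, hu⟩ := hS.lin σ hσ
    exact ⟨u, fun v hv hvσ => by rw [hcA v hv]; exact hu v hv hvσ⟩⟩
  have hc'0 : c' 0 = 0 := by
    rw [hc']
    exact if_neg fun h => h.1 rfl
  have hc'1 : ∀ v, c' v ≤ 1 := by
    intro v
    by_cases hv : Adm m a v
    · rw [hcA v hv]
      exact hS.le_one hlc hv
    · rw [hc']
      dsimp only
      rw [if_neg hv]
      norm_num
  have hδ' : ∀ P, δ P = c' (mulQ F d x P) := by
    intro P
    rw [hδ]
    rcases hadm P with h | h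
    · rw [h, hc0, hc'0]
    · rw [hcA _ h]
  obtain ⟨q, hq⟩ : ∃ q : Fin r → ℚ, q = fun i => ((d i : ℚ) - n i - 1) / d i := ⟨_, rfl⟩
  have hcond : (∀ σ ∈ S, ∀ s ∈ σ, 1 - c s ≤ ∑ i, (((d i : ℚ) - n i - 1) / d i) * (s i : ℚ)) ↔
      ∀ v, Adm m a v → 1 - c' v ≤ ∑ i, (((d i : ℚ) - n i - 1) / d i) * v i := by
    rw [hS'.le_iff fun i => ((d i : ℚ) - n i - 1) / d i]
    constructor
    · intro h σ hσ s hs
      rw [hcA s (hS.adm σ hσ s hs)]
      exact h σ hσ s hs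
    · intro h σ hσ s hs
      have h1 := h σ hσ s hs
      rwa [hcA s (hS.adm σ hσ s hs)] at h1
  -- the indices
  obtain ⟨J, hJ⟩ : ∃ J : Finset (Fin r), ∀ i, i ∈ J ↔ ∀ v, Adm m a v →
      ∑ s, (((d s : ℚ) - n s - 1) / d s) * v s = 1 - c' v → v i = 0 :=
    ⟨Finset.univ.filter fun i => ∀ v, Adm m a v →
      ∑ s, (((d s : ℚ) - n s - 1) / d s) * v s = 1 - c' v → v i = 0, fun i => by simp⟩
  obtain ⟨h1, h2, h3⟩ := main_d hr hn hN hd hh hs hx0 hbas hm hdiv hz hgen hc'0 hc'1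
    (fun v k hk hv => (hS'.mul (adm_smul) v k hk hv).le) hS'.fg hδ' J hJ
  rw [← hcond] at h1 h2 h3
  refine ⟨h1, h2, fun hpos => ?_⟩
  have hIJ : I = J := by
    ext i
    rw [hI, hJ, hS'.eq_iff (fun i => ((d i : ℚ) - n i - 1) / d i) (hcond.1 hpos)]
    constructor
    · intro h σ hσ s hs heq
      rw [hcA s (hS.adm σ hσ s hs)] at heq
      exact h σ hσ s hs heq
    · intro h σ hσ s hs heq
      refine h σ hσ s hs ?_
      rw [hcA s (hS.adm σ hσ s hs)]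
      exact heq
  rw [hIJ]
  exact h3 hpos

end Pool.Agent.U188.LcProd
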