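import Pool.Agent.U188.Fans
import Pool.Agent.U188.LcProd
import Pool.Agent.Q57.GH.Gmm
import Pool.Agent.Q57.GM.Nef

/-!
The asymptotic orders of the sections of log canonical divisors on covers of products of projective
spaces.
-/

set_option autoImplicit false
set_option linter.overlappingInstances false
set_option linter.unusedSectionVars false
set_option maxHeartbeats 1000000

open FF MvPolynomial Pool.Agent.W603.LV Pool.Agent.W602.GT Pool.Agent.W602.Cov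
open Pool.Agent.TH756.PR Pool.Agent.TH122.AB Pool.Agent.TH756.PN
open Pool.Agent.Y169.CH Pool.Agent.Q57.TP Pool.Agent.Q57.TQ Pool.Agent.Q57.GM
open Pool.Agent.Q57.GH

namespace Pool.Agent.U188.Good

variable {r N R : ℕ} {n : Fin r → ℕ} {K : Type} [Field K] [Algebra ℂ K]

/-- **The asymptotic orders.** -/
theorem good (hr : 1 ≤ r) (hn : ∀ i, 1 ≤ n i) (hN : N = ∑ i, n i)
    {F : ∀ i, MvPolynomial (Fin (n i + 1)) ℂ} {d : Fin r → ℕ} (hd : ∀ i, 1 ≤ d i)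
    (hh : ∀ i, (F i).IsHomogeneous (d i)) (hs : ∀ i, SmF (F i))
    {x : ∀ i, Fin (n i + 1) → K} (hx0 : ∀ i, x i 0 ≠ 0)
    (hbas : IsTranscendenceBasis ℂ (aff x)) {m : Fin R → ℕ} (hm : ∀ j, 0 < m j)
    {a : Fin R → Fin r → ℕ} (hdiv : ∀ j i, m j ∣ a j i * d i) {z : Fin R → K}
    (hz : ∀ j, z j ^ m j = ∏ i, (aeval (x i) (F i) / x i 0 ^ d i) ^ a j i)
    (hgen : IntermediateField.adjoin ℂ (Set.range (aff x) ∪ Set.range z) = ⊤)
    {c : (Fin r → ℕ) → ℚ} (hc0 : c 0 = 0) (hc1 : ∀ v, c v ≤ 1)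
    (hmul : ∀ v (k : ℕ), 1 ≤ k → Adm m a v → 1 - c (k • v) ≤ k * (1 - c v))
    (hfg : FGH m a c) {δ : Place ℂ K → ℚ} (hδ : ∀ P, δ P = c (mulQ F d x P))
    (hpos : ∀ v, Adm m a v → 1 - c v ≤ ∑ i, (((d i : ℚ) - n i - 1) / d i) * v i) :
    BGood N δ := by
  obtain ⟨N', e, Φ, C, x', F', rfl, hΦ, rfl, rfl, H, hvv, -⟩ :=
    Pool.Agent.Q57.FT.setup (N := N) hr hn hN hd hh hs hx0 hbas hm hdiv hz hgen
  have hcf : CoefH C c δ := ⟨hc0, hc1, fun P v h => by rw [hδ, hvv P v h]⟩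
  obtain ⟨m0, r', ω, h1, h2, h3⟩ := gmmH H hd hΦ hcf hmul hfg hpos
  exact ⟨m0, r', ω, h1, h2, fun P _ => h3 P⟩

/-- the case without boundary -/
theorem main0 (hr : 1 ≤ r) (hn : ∀ i, 1 ≤ n i) (hN : N = ∑ i, n i)
    {F : ∀ i, MvPolynomial (Fin (n i + 1)) ℂ} {d : Fin r → ℕ} (hd : ∀ i, 1 ≤ d i)
    (hh : ∀ i, (F i).IsHomogeneous (d i)) (hs : ∀ i, SmF (F i))
    {x : ∀ i, Fin (n i + 1) → K} (hx0 : ∀ i, x i 0 ≠ 0)
    (hbas : IsTranscendenceBasis ℂ (aff x)) {m : Fin R → ℕ} (hm : ∀ j, 0 < m j)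
    {a : Fin R → Fin r → ℕ} (hdiv : ∀ j i, m j ∣ a j i * d i) {z : Fin R → K}
    (hz : ∀ j, z j ^ m j = ∏ i, (aeval (x i) (F i) / x i 0 ^ d i) ^ a j i)
    (hgen : IntermediateField.adjoin ℂ (Set.range (aff x) ∪ Set.range z) = ⊤) :
    (BPsef N (fun _ : Place ℂ K => 0) ↔
      ∀ v, Adm m a v → 1 ≤ ∑ i, (((d i : ℚ) - n i - 1) / d i) * v i) ∧
    (BPsef N (fun _ : Place ℂ K => 0) → BGood N (fun _ : Place ℂ K => 0)) := by
  classical
  have hfg : FGH m a fun _ => 0 := fgH_of_finite (by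
    refine (Set.finite_singleton (0 : ℚ)).subset ?_
    rintro _ ⟨v, rfl⟩
    rfl)
  have hmul : ∀ v (k : ℕ), 1 ≤ k → Adm m a v →
      1 - (fun _ : Fin r → ℕ => (0 : ℚ)) (k • v) ≤ k * (1 - (fun _ : Fin r → ℕ => (0 : ℚ)) v) := by
    intro v k hk _
    have : (1 : ℚ) ≤ k := by exact_mod_cast hk
    simpa using this
  obtain ⟨h1, -, -⟩ := main_d (N := N) (c := fun _ => 0) (δ := fun _ => 0) hr hn hN hd hh hs hx0
    hbas hm hdiv hz hgen rfl (fun _ => zero_le_one) hmul hfg (fun _ => rfl)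
    (Finset.univ.filter fun i => ∀ v, Adm m a v →
      ∑ s, (((d s : ℚ) - n s - 1) / d s) * v s = 1 - 0 → v i = 0) (fun i => by simp)
  simp only [sub_zero] at h1
  refine ⟨h1, fun h => ?_⟩
  exact good (c := fun _ => 0) hr hn hN hd hh hs hx0 hbas hm hdiv hz hgen rfl
    (fun _ => zero_le_one) hmul hfg (fun _ => rfl) (by simpa only [sub_zero] using h1.1 h)

end Pool.Agent.U188.Good
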