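import Pool.Agent.U188.Fans
import Pool.Agent.Q57.FT.Top

/-!
Nef log canonical divisors of toroidal pairs on covers of products of projective spaces have no base
points at the Cartier index.
-/

set_option autoImplicit false
set_option linter.overlappingInstances false
set_option linter.unusedSectionVars false
set_option maxHeartbeats 1000000

open FF MvPolynomial Pool.Agent.W603.LV Pool.Agent.W602.GT Pool.Agent.W602.Cov
open Pool.Agent.TH756.PR Pool.Agent.TH122.AB Pool.Agent.TH756.PN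
open Pool.Agent.Y169.CH Pool.Agent.Q57.TP Pool.Agent.Q57.TQ Pool.Agent.Q57.GM
open Pool.Agent.Q57.GH Pool.Agent.Q57.FG Pool.Agent.Q57.FH Pool.Agent.Q57.FT Pool.Agent.Q57.GE

namespace Pool.Agent.U188.IndexFree

variable {r N R : ℕ} {n : Fin r → ℕ} {K : Type} [Field K] [Algebra ℂ K]

/-- the coefficients of the canonical divisor of the pair with the log discrepancies `1 - c v` -/
def cK (c : (Fin r → ℕ) → ℚ) (v : Fin r → ℕ) : ℚ := if v = 0 then 0 else ∑ k, (v k : ℚ) - (1 - c v)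

/-- a common denominator -/
theorem exists_den (S : Finset (Finset (Fin r → ℕ))) (u : Finset (Fin r → ℕ) → Fin r → ℚ) :
    ∃ ρ : ℕ, 1 ≤ ρ ∧ ∀ σ ∈ S, ∀ k, ∃ z : ℤ, (ρ : ℚ) * u σ k = z := by
  classical
  refine ⟨∏ σ ∈ S, ∏ k, (u σ k).den, Nat.one_le_iff_ne_zero.2 ?_, fun σ hσ k => ?_⟩
  · exact Finset.prod_ne_zero_iff.2 fun σ _ => Finset.prod_ne_zero_iff.2 fun k _ => (u σ k).den_nz
  · obtain ⟨q, hq⟩ : (u σ k).den ∣ ∏ σ ∈ S, ∏ k, (u σ k).den :=
      (Finset.dvd_prod_of_mem (fun k => (u σ k).den) (Finset.mem_univ k)).trans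
        (Finset.dvd_prod_of_mem (fun σ => ∏ k, (u σ k).den) hσ)
    refine ⟨q * (u σ k).num, ?_⟩
    rw [hq]
    push_cast
    have h1 := Rat.den_mul_eq_num (u σ k)
    calc ((u σ k).den : ℚ) * q * u σ k = q * ((u σ k).den * u σ k) := by ring
      _ = q * (u σ k).num := by rw [h1]

/-- **Freeness at the Cartier index.** -/
theorem main (hr : 1 ≤ r) (hn : ∀ i, 1 ≤ n i) (hN : N = ∑ i, n i)
    {F : ∀ i, MvPolynomial (Fin (n i + 1)) ℂ} {d : Fin r → ℕ} (hd : ∀ i, 1 ≤ d i)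
    (hh : ∀ i, (F i).IsHomogeneous (d i)) (hs : ∀ i, SmF (F i))
    {x : ∀ i, Fin (n i + 1) → K} (hx0 : ∀ i, x i 0 ≠ 0)
    (hbas : IsTranscendenceBasis ℂ (aff x)) {m : Fin R → ℕ} (hm : ∀ j, 0 < m j)
    {a : Fin R → Fin r → ℕ} (hdiv : ∀ j i, m j ∣ a j i * d i) {z : Fin R → K}
    (hz : ∀ j, z j ^ m j = ∏ i, (aeval (x i) (F i) / x i 0 ^ d i) ^ a j i)
    (hgen : IntermediateField.adjoin ℂ (Set.range (aff x) ∪ Set.range z) = ⊤)
    {S : Finset (Finset (Fin r → ℕ))} (hS : Fan m a S) {c : (Fin r → ℕ) → ℚ}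
    {u : Finset (Fin r → ℕ) → Fin r → ℚ}
    (hu : ∀ σ ∈ S, ∀ v, Adm m a v → InC σ v → 1 - c v = ∑ k, u σ k * v k)
    {δ : Place ℂ K → ℚ}
    (hδ : ∀ P, δ P = cK c (mulQ F d x P) - ∑ t, ((-((n t : ℤ) + 1) : ℤ) : ℚ) * minO (x t) P) :
    [NefZ N (fun _ : Fin 1 => δ) (fun _ => 1),
      ∀ σ ∈ S, (∀ t, (d t : ℚ) * u σ t ≤ (d t : ℚ) - n t - 1) ∧
        ∀ τ ∈ S, ∀ s ∈ τ, 1 - c s ≤ ∑ k, u σ k * (s k : ℚ),
      ∀ ρ : ℕ, 1 ≤ ρ → (∀ v, Adm m a v → ∃ z : ℤ, (ρ : ℚ) * c v = z) →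
        Bpf N (fun _ : Fin 1 => δ) (fun _ => (ρ : ℤ)),
      ∃ ρ : ℕ, 1 ≤ ρ ∧ Bpf N (fun _ : Fin 1 => δ) (fun _ => (ρ : ℤ))].TFAE := by
  classical
  have hlin : LinC m a S (fun _ : Fin 1 => cK c) fun σ _ k => u σ k - 1 := by
    intro σ hσ i v hv hvσ
    change - cK c v = ∑ k, (u σ k - 1) * (v k : ℚ)
    unfold cK
    rw [if_neg hv.1]
    have h1 := hu σ hσ v hv hvσ
    simp only [sub_mul, Finset.sum_sub_distrib, one_mul]
    linarith
  have hc0 : ∀ i : Fin 1, (fun _ : Fin 1 => cK c) i 0 = 0 := fun i => if_pos rfl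
  have hδ' : ∀ (i : Fin 1) P, (fun _ : Fin 1 => δ) i P = (fun _ : Fin 1 => cK c) i (mulQ F d x P) -
      ∑ t, (((fun _ : Fin 1 => fun t : Fin r => -((n t : ℤ) + 1)) i t : ℤ) : ℚ) * minO (x t) P :=
    fun i P => hδ P
  -- the inequalities
  have hI : ∀ lam : ℝ, 0 < lam → (Ineq S d (fun _ : Fin 1 => cK c)
      (fun _ : Fin 1 => fun t : Fin r => -((n t : ℤ) + 1)) (fun σ _ k => u σ k - 1)
      (fun _ => lam) ↔ ∀ σ ∈ S, (∀ t, (d t : ℚ) * u σ t ≤ (d t : ℚ) - n t - 1) ∧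
        ∀ τ ∈ S, ∀ s ∈ τ, 1 - c s ≤ ∑ k, u σ k * (s k : ℚ)) := by
    intro lam hlam
    unfold Ineq
    refine forall₂_congr fun σ hσ => and_congr (forall_congr' fun t => ?_)
      (forall₂_congr fun τ hτ => forall₂_congr fun s hs' => ?_)
    · rw [Fin.sum_univ_one, Fin.sum_univ_one]
      push_cast
      have h1 : ((d t : ℝ) * (lam * ((u σ t : ℝ) - 1)) ≤ lam * (-1 + -(n t : ℝ)) ↔
          (d t : ℝ) * u σ t ≤ (d t : ℝ) - n t - 1) := by
        constructor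
        · intro h
          have h2 : lam * ((d t : ℝ) * ((u σ t : ℝ) - 1)) ≤ lam * (-1 + -(n t : ℝ)) := by
            linarith
          have h3 := le_of_mul_le_mul_left h2 hlam
          linarith
        · intro h
          have h2 : (d t : ℝ) * ((u σ t : ℝ) - 1) ≤ -1 + -(n t : ℝ) := by linarith
          have h3 := mul_le_mul_of_nonneg_left h2 hlam.le
          linarith
      have h2 : ((d t : ℝ) * u σ t ≤ (d t : ℝ) - n t - 1) ↔
          ((d t : ℚ) * u σ t ≤ (d t : ℚ) - n t - 1) := by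
        constructor
        · intro h
          exact_mod_cast h
        · intro h
          exact_mod_cast h
      rw [← h2, ← h1]
      constructor
      · intro h
        linarith
      · intro h
        linarith
    · have hsA := hS.adm τ hτ s hs'
      simp only [Fin.sum_univ_one]
      unfold cK
      rw [if_neg hsA.1]
      have h1 : ∑ k, lam * ((((u σ k - 1 : ℚ)) : ℝ)) * (s k : ℝ) =
          lam * (((∑ k, u σ k * (s k : ℚ) - ∑ k, (s k : ℚ) : ℚ)) : ℝ) := by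
        push_cast
        rw [mul_sub, Finset.mul_sum, Finset.mul_sum, ← Finset.sum_sub_distrib]
        exact Finset.sum_congr rfl fun k _ => by ring
      rw [h1]
      have h2 : -(lam * (((∑ k, (s k : ℚ) - (1 - c s) : ℚ)) : ℝ)) =
          lam * (((1 - c s - ∑ k, (s k : ℚ) : ℚ)) : ℝ) := by
        push_cast
        ring
      rw [h2]
      constructor
      · intro h
        have h3 := le_of_mul_le_mul_left h hlam
        have h4 : (1 - c s - ∑ k, (s k : ℚ) : ℚ) ≤ (∑ k, u σ k * (s k : ℚ) - ∑ k, (s k : ℚ) : ℚ) := by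
          exact_mod_cast h3
        linarith
      · intro h
        refine mul_le_mul_of_nonneg_left ?_ hlam.le
        have h4 : (1 - c s - ∑ k, (s k : ℚ) : ℚ) ≤ (∑ k, u σ k * (s k : ℚ) - ∑ k, (s k : ℚ) : ℚ) := by
          linarith
        exact_mod_cast h4
  obtain ⟨N0, h0, -, hcone⟩ := main_nefcone (N := N) (p := 1) hr hn hN hd hh hs hx0 hbas hm hdiv hz
    hgen hS hc0 hlin hδ'
  have h12 : NefZ N (fun _ : Fin 1 => δ) (fun _ => 1) ↔
      ∀ σ ∈ S, (∀ t, (d t : ℚ) * u σ t ≤ (d t : ℚ) - n t - 1) ∧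
        ∀ τ ∈ S, ∀ s ∈ τ, 1 - c s ≤ ∑ k, u σ k * (s k : ℚ) := by
    rw [(hcone fun _ => 1).1, hI 1 one_pos]
  have hbpf : ∀ ρ : ℕ, 1 ≤ ρ → (∀ v, Adm m a v → ∃ z : ℤ, (ρ : ℚ) * c v = z) →
      ((∀ σ ∈ S, (∀ t, (d t : ℚ) * u σ t ≤ (d t : ℚ) - n t - 1) ∧
        ∀ τ ∈ S, ∀ s ∈ τ, 1 - c s ≤ ∑ k, u σ k * (s k : ℚ)) ↔
        Bpf N (fun _ : Fin 1 => δ) (fun _ => (ρ : ℤ))) := by
    intro ρ hρ hint
    have h1 := main_cartier (N := N) (p := 1) hr hn hN hd hh hs hx0 hbas hm hdiv hz hgen hS hc0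
      hlin hδ' (μ := fun _ => (ρ : ℤ)) (fun v hv => by
        obtain ⟨z, hz⟩ := hint v hv
        refine ⟨ρ * ∑ k, (v k : ℤ) - ρ + z, ?_⟩
        rw [Fin.sum_univ_one]
        change ((ρ : ℤ) : ℚ) * cK c v = _
        unfold cK
        rw [if_neg hv.1]
        push_cast
        rw [← hz]
        ring)
    have h2 := hI (((ρ : ℤ) : ℝ)) (by
      have : (0 : ℝ) < ρ := by exact_mod_cast hρ
      exact_mod_cast this)
    rw [← h2]
    exact h1.2.symm.trans h1.1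
  have hnb : ∀ ρ : ℕ, 1 ≤ ρ → Bpf N (fun _ : Fin 1 => δ) (fun _ => (ρ : ℤ)) →
      NefZ N (fun _ : Fin 1 => δ) (fun _ => 1) := by
    intro ρ hρ hb
    have hρ' : (0 : ℝ) < ρ := by exact_mod_cast hρ
    have h1 : NefZ N (fun _ : Fin 1 => δ) fun _ => ((ρ : ℤ) : ℝ) :=
      nefZ_of (N0 := 1) (h := fun _ => fun _ => (ρ : ℤ)) (fun _ => hb) (t := fun _ => 1)
        (fun _ => zero_le_one) fun i => by simp
    rw [(hcone fun _ => ((ρ : ℤ) : ℝ)).1, hI _ (by exact_mod_cast hρ')] at h1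
    exact h12.2 h1
  tfae_have 1 ↔ 2 := h12
  tfae_have 2 → 3 := fun h ρ hρ hint => (hbpf ρ hρ hint).1 h
  tfae_have 3 → 4 := by
    intro h
    obtain ⟨ρ, hρ, hden⟩ := exists_den S u
    refine ⟨ρ, hρ, h ρ hρ fun v hv => ?_⟩
    obtain ⟨σ, hσ, hvσ⟩ := hS.cover v hv
    choose z hz using hden σ hσ
    refine ⟨ρ - ∑ k, z k * v k, ?_⟩
    have h1 := hu σ hσ v hv hvσ
    have h2 : (ρ : ℚ) * (1 - c v) = ∑ k, (z k : ℚ) * v k := by
      rw [h1, Finset.mul_sum]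
      refine Finset.sum_congr rfl fun k _ => ?_
      rw [← hz k]
      ring
    push_cast
    linarith
  tfae_have 4 → 1 := fun ⟨ρ, hρ, hb⟩ => hnb ρ hρ hb
  tfae_finish

end Pool.Agent.U188.IndexFree
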