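import Pool.Agent.U188.Fans
import Pool.Agent.Q57.TP.Mak

/-!
Toroidal log canonical pairs on covers of projective spaces branched along normal crossing
hypersurfaces.
-/

set_option autoImplicit false
set_option linter.overlappingInstances false
set_option linter.unusedSectionVars false
set_option maxHeartbeats 1000000

open FF MvPolynomial Pool.Agent.W603.LV Pool.Agent.W602.GT Pool.Agent.W602.Cov
open Pool.Agent.TH122.AB Pool.Agent.Y169.CH Pool.Agent.Y169.TH Pool.Agent.W619.PQ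
open Pool.Agent.Q57.TP

namespace Pool.Agent.U188.LcProj

variable {d R : ℕ} {K : Type} [Field K] [Algebra ℂ K]

theorem adm_smul {m : Fin R → ℕ} {a : Fin R → Fin (d + 2) → ℕ} (v : Fin (d + 2) → ℕ) (k : ℕ)
    (hk : 1 ≤ k) (hv : Pool.Agent.Y169.TH.Adm m a v) : Pool.Agent.Y169.TH.Adm m a (k • v) := by
  obtain ⟨i, hi⟩ := hv.2.1
  refine ⟨fun h0 => hv.1 (funext fun i => ?_), ⟨i, ?_⟩, fun j => ?_⟩
  · have h1 := congrFun h0 i
    simp only [Pi.smul_apply, smul_eq_mul, Pi.zero_apply, Nat.mul_eq_zero] at h1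
    rcases h1 with h1 | h1
    · omega
    · exact h1
  · simp only [Pi.smul_apply, smul_eq_mul, hi, mul_zero]
  · have h1 : ∑ i, a j i * (k • v) i = k * ∑ i, a j i * v i := by
      rw [Finset.mul_sum]
      refine Finset.sum_congr rfl fun i _ => ?_
      simp only [Pi.smul_apply, smul_eq_mul]
      ring
    rw [h1]
    exact Dvd.dvd.mul_left (hv.2.2 j) k

/-- **Abundance for toroidal log canonical pairs.** -/
theorem main {x : Fin (d + 2) → K} (hx0 : x 0 ≠ 0)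
    (hbas : IsTranscendenceBasis ℂ fun b : Fin (d + 1) => x b.succ / x 0)
    {F : Fin (d + 2) → MvPolynomial (Fin (d + 2)) ℂ} {dF : Fin (d + 2) → ℕ} (hd : ∀ k, 0 < dF k)
    (hh : ∀ k, (F k).IsHomogeneous (dF k)) (hF : Snc F) {z : Fin R → K} {M : Fin R → ℕ}
    (hM : ∀ j, 0 < M j) {a : Fin R → Fin (d + 2) → ℕ}
    (hz : ∀ j, z j ^ M j = ∏ k, (aeval x (F k) / x 0 ^ dF k) ^ a j k)
    (hdiv : ∀ j, M j ∣ ∑ k, a j k * dF k)
    (hgen : IntermediateField.adjoin ℂ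
      (Set.range (fun b : Fin (d + 1) => x b.succ / x 0) ∪ Set.range z) = ⊤)
    {S : Finset (Finset (Fin (d + 2) → ℕ))} {c : (Fin (d + 2) → ℕ) → ℚ} (hc0 : c 0 = 0)
    (hS : Fans.PL (Pool.Agent.Y169.TH.Adm M a) S c) (hlc : ∀ σ ∈ S, ∀ s ∈ σ, c s ≤ 1)
    {δ : Place ℂ K → ℚ} (hδ : ∀ P, δ P = c (mul F dF x P))
    {Q : Set (Fin (d + 2) → ℚ)} (hQ : Q = {y | ∑ k, (dF k : ℚ) * y k = ∑ k, (dF k : ℚ) -
      ((d + 2 : ℕ) : ℚ) ∧ ∀ σ ∈ S, ∀ s ∈ σ, 1 - c s ≤ ∑ k, y k * (s k : ℚ)}) :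
    (BPsef (d + 1) δ ↔ Q.Nonempty) ∧ (BKod (d + 1) δ 0 ↔ Q.Nonempty) ∧
    (Q.Nonempty → BKod (d + 1) δ (Module.finrank ℚ (vectorSpan ℚ Q)) ∧
      BNum (d + 1) δ (Module.finrank ℚ (vectorSpan ℚ Q))) := by
  classical
  -- the multiplicities are admissible
  have hadm : ∀ P : Place ℂ K, mul F dF x P = 0 ∨ Pool.Agent.Y169.TH.Adm M a (mul F dF x P) := by
    obtain ⟨Φ, rfl, C, rfl, rfl, hvv⟩ := exists_cv_d hx0 hbas hd hh hF hM hz hdiv hgen
    intro P
    obtain ⟨α, v, hα, hdat⟩ := C.exists_dat P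
    have h1 := hvv P α v hdat
    by_cases hv : v = 0
    · left
      rw [← h1, hv]
    · right
      have h2 := C.adm hdat hv
      rwa [h1] at h2
  obtain ⟨c', hc'⟩ : ∃ c' : (Fin (d + 2) → ℕ) → ℚ,
    c' = fun v => if Pool.Agent.Y169.TH.Adm M a v then c v else 0 := ⟨_, rfl⟩
  have hcA : ∀ v, Pool.Agent.Y169.TH.Adm M a v → c' v = c v := fun v hv => by
    rw [hc']
    exact if_pos hv
  have hS' : Fans.PL (Pool.Agent.Y169.TH.Adm M a) S c' := ⟨hS.adm, hS.cover, fun σ hσ => by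
    obtain ⟨u, hu⟩ := hS.lin σ hσ
    exact ⟨u, fun v hv hvσ => by rw [hcA v hv]; exact hu v hv hvσ⟩⟩
  have hc'0 : c' 0 = 0 := by
    rw [hc']
    exact if_neg fun h => h.1 rfl
  have hc'1 : ∀ v, c' v ≤ 1 := by
    intro v
    by_cases hv : Pool.Agent.Y169.TH.Adm M a v
    · rw [hcA v hv]
      exact hS.le_one hlc hv
    · rw [hc']
      dsimp only
      rw [if_neg hv]
      norm_num
  have hδ' : ∀ P, δ P = c' (mul F dF x P) := by
    intro P
    rw [hδ]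
    rcases hadm P with h | h
    · rw [h, hc0, hc'0]
    · rw [hcA _ h]
  have hQ' : Q = PiC M a dF c' := by
    rw [hQ]
    ext y
    change (_ ∧ _) ↔ (_ ∧ _)
    refine and_congr Iff.rfl ?_
    have h1 := hS'.le_iff y
    have h2 : (∀ v, Pool.Agent.Y169.TH.Adm M a v → 1 - c' v ≤ ∑ k, (v k : ℚ) * y k) ↔
        ∀ v, Pool.Agent.Y169.TH.Adm M a v → 1 - c' v ≤ ∑ k, y k * (v k : ℚ) := by
      simp only [mul_comm]
    rw [h2, h1]
    constructor
    · intro h σ hσ s hs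
      rw [hcA s (hS.adm σ hσ s hs)]
      exact h σ hσ s hs
    · intro h σ hσ s hs
      have h3 := h σ hσ s hs
      rwa [hcA s (hS.adm σ hσ s hs)] at h3
  rw [hQ']
  exact main_d hx0 hbas hd hh hF hM hz hdiv hgen hc'0 hc'1
    (fun v k hk hv => (hS'.mul adm_smul v k hk hv).le) hS'.fg hδ'

end Pool.Agent.U188.LcProj
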