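import Mathlib

/-!
A real point of a rational polyhedron is a convex combination of rational points of the polyhedron
which are as near as we like.
-/

set_option autoImplicit false

namespace Pool.Agent.U188.RatPoly

/-- a real vector is a convex combination (with positive weights) of near rational vectors -/
theorem near_rat {s : ℕ} (hs : 1 ≤ s) (b : Fin s → ℝ) {δ : ℝ} (hδ : 0 < δ) :
    ∃ (lam : Fin s × Bool → ℝ) (t : Fin s × Bool → Fin s → ℚ), (∀ j, 0 < lam j) ∧
      ∑ j, lam j = 1 ∧ (∀ k, ∑ j, lam j * t j k = b k) ∧ ∀ j k, |(t j k : ℝ) - b k| < δ := by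
  classical
  have hs' : (0 : ℝ) < s := by exact_mod_cast hs
  obtain ⟨r, hr0, hrδ⟩ := exists_rat_btwn (half_pos hδ)
  have hr0' : (0 : ℝ) < r := by exact_mod_cast hr0
  have hrs : (0 : ℝ) < r / s := div_pos hr0' hs'
  have hex : ∀ k, ∃ q : ℚ, |(q : ℝ) - b k| < r / s := by
    intro k
    obtain ⟨q, hq1, hq2⟩ := exists_rat_btwn (show b k - r / s < b k + r / s by linarith)
    exact ⟨q, abs_lt.2 ⟨by linarith, by linarith⟩⟩
  choose q hq using hex
  have hrs' : (r : ℝ) / s ≤ r := div_le_self hr0'.le (by exact_mod_cast hs)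
  refine ⟨fun j => 1 / (2 * s) + (if j.2 then 1 else -1) * ((b j.1 - q j.1) / (2 * r)),
    fun j k => q k + (if k = j.1 then (if j.2 then r else -r) else 0), ?_, ?_, ?_, ?_⟩
  · rintro ⟨k, ε⟩
    have h1 := abs_lt.1 (hq k)
    have h2 : |(b k - q k) / (2 * r)| < 1 / (2 * s) := by
      rw [abs_div, abs_of_pos (show (0 : ℝ) < 2 * r by linarith), div_lt_div_iff₀ (by linarith)
        (by linarith), abs_sub_comm]
      have h3 := hq k
      rw [lt_div_iff₀ hs'] at h3
      linarith
    have h3 := abs_lt.1 h2
    cases ε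
    · simp only [Bool.false_eq_true, if_false]
      linarith
    · simp only [if_true]
      linarith
  · rw [Fintype.sum_prod_type]
    simp only [Fintype.sum_bool, if_true, Bool.false_eq_true, if_false]
    have h1 : ∀ k : Fin s, (1 / (2 * (s : ℝ)) + 1 * ((b k - q k) / (2 * r)) +
        (1 / (2 * (s : ℝ)) + -1 * ((b k - q k) / (2 * r)))) = 1 / s := by
      intro k
      field_simp
      ring
    rw [Finset.sum_congr rfl fun k _ => h1 k, Finset.sum_const, Finset.card_univ, Fintype.card_fin,
      nsmul_eq_mul]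
    field_simp
  · intro k
    rw [Fintype.sum_prod_type]
    simp only [Fintype.sum_bool, if_true, Bool.false_eq_true, if_false]
    have h1 : ∀ k' : Fin s, ((1 / (2 * (s : ℝ)) + 1 * ((b k' - q k') / (2 * r))) *
          ((q k + (if k = k' then r else 0) : ℚ) : ℝ) +
        (1 / (2 * (s : ℝ)) + -1 * ((b k' - q k') / (2 * r))) *
          ((q k + (if k = k' then -r else 0) : ℚ) : ℝ)) =
        1 / s * q k + (if k = k' then b k - q k else 0) := by
      intro k'
      by_cases h : k = k'
      · subst h
        simp only [if_true]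
        push_cast
        field_simp
        ring
      · simp only [if_neg h]
        push_cast
        field_simp
        ring
    rw [Finset.sum_congr rfl fun k' _ => h1 k', Finset.sum_add_distrib, Finset.sum_const,
      Finset.card_univ, Fintype.card_fin, nsmul_eq_mul, Finset.sum_ite_eq]
    simp only [Finset.mem_univ, if_true]
    field_simp
    ring
  · rintro ⟨k', ε⟩ k
    have h1 : |((if k = k' then (if ε then r else -r) else 0 : ℚ) : ℝ)| ≤ r := by
      by_cases h : k = k'
      · cases ε
        · simp [h, abs_of_pos hr0']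
        · simp [h, abs_of_pos hr0']
      · simp [h, hr0'.le]
    have h2 : (((q k + (if k = k' then (if ε then r else -r) else 0) : ℚ)) : ℝ) - b k =
        ((q k : ℝ) - b k) + ((if k = k' then (if ε then r else -r) else 0 : ℚ) : ℝ) := by
      push_cast
      ring
    change |(((q k + (if k = k' then (if ε then r else -r) else 0) : ℚ)) : ℝ) - b k| < δ
    rw [h2]
    calc _ ≤ |(q k : ℝ) - b k| + |((if k = k' then (if ε then r else -r) else 0 : ℚ) : ℝ)| :=
          abs_add_le _ _
      _ < r / s + r := add_lt_add_of_lt_of_le (hq k) h1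
      _ ≤ r + r := by linarith
      _ < δ := by linarith

/-- **Rational polyhedra.** A real point `w` with `∑ w i = 1` is a convex combination of near
rational points which satisfy all the rational inequalities `0 ≤ ∑ a e i * w i` and
`0 < ∑ a e i * w i` which are satisfied by `w`. -/
theorem main {p : ℕ} {E : Type} [Finite E] (a : E → Fin p → ℚ) (w : Fin p → ℝ)
    (h1 : ∑ i, w i = 1) {ε : ℝ} (hε : 0 < ε) :
    ∃ (J : ℕ) (r : Fin J → ℝ) (q : Fin J → Fin p → ℚ), (∀ j, 0 < r j) ∧ ∑ j, r j = 1 ∧
      (∀ i, w i = ∑ j, r j * q j i) ∧ ∀ j, ∑ i, q j i = 1 ∧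
        (∀ e, (0 ≤ ∑ i, (a e i : ℝ) * w i → 0 ≤ ∑ i, a e i * q j i) ∧
          (0 < ∑ i, (a e i : ℝ) * w i → 0 < ∑ i, a e i * q j i)) ∧
        ∀ i, |(q j i : ℝ) - w i| < ε := by
  classical
  let V : Submodule ℚ ℝ := Submodule.span ℚ (Set.range w)
  have : FiniteDimensional ℚ V := FiniteDimensional.span_of_finite ℚ (Set.finite_range w)
  let b := Module.finBasis ℚ V
  set s := Module.finrank ℚ V with hs_def
  have hwV : ∀ i, w i ∈ V := fun i => Submodule.subset_span ⟨i, rfl⟩
  let C : Fin p → Fin s → ℚ := fun i k => b.repr ⟨w i, hwV i⟩ k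
  have hw : ∀ i, w i = ∑ k, (C i k : ℝ) * (b k : ℝ) := by
    intro i
    have h := congrArg (Subtype.val : V → ℝ) (b.sum_repr ⟨w i, hwV i⟩)
    simp only [AddSubmonoidClass.coe_finsetSum, Submodule.coe_smul_of_tower] at h
    rw [← h]
    exact Finset.sum_congr rfl fun k _ => by rw [Rat.smul_def]
  -- linear forms
  have hform : ∀ α : Fin p → ℚ, ∑ i, (α i : ℝ) * w i = ∑ k, ((∑ i, α i * C i k : ℚ) : ℝ) * (b k : ℝ) := by
    intro α
    calc ∑ i, (α i : ℝ) * w i = ∑ i, ∑ k, (α i : ℝ) * ((C i k : ℝ) * (b k : ℝ)) := by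
          refine Finset.sum_congr rfl fun i _ => ?_
          rw [← Finset.mul_sum, ← hw i]
      _ = ∑ k, ∑ i, (α i : ℝ) * ((C i k : ℝ) * (b k : ℝ)) := Finset.sum_comm
      _ = _ := by
          refine Finset.sum_congr rfl fun k _ => ?_
          push_cast
          rw [Finset.sum_mul]
          exact Finset.sum_congr rfl fun i _ => by ring
  have hzero : ∀ α : Fin p → ℚ, ∑ i, (α i : ℝ) * w i = 0 → ∀ k, ∑ i, α i * C i k = 0 := by
    intro α h0 k
    rw [hform] at h0
    have h2 : ∑ k, (∑ i, α i * C i k) • b k = 0 := by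
      apply Subtype.ext
      simp only [AddSubmonoidClass.coe_finsetSum, Submodule.coe_smul_of_tower, ZeroMemClass.coe_zero]
      rw [← h0]
      exact Finset.sum_congr rfl fun k _ => by rw [Rat.smul_def]
    exact Fintype.linearIndependent_iff.1 b.linearIndependent _ h2 k
  -- the affine family
  let X : (Fin s → ℝ) → Fin p → ℝ := fun t i => ∑ k, (C i k : ℝ) * t k
  let one : (Fin s → ℝ) → ℝ := fun t => ∑ i, X t i
  let bb : Fin s → ℝ := fun k => (b k : ℝ)
  have hXb : ∀ i, X bb i = w i := fun i => (hw i).symm
  have honeb : one bb = 1 := by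
    change ∑ i, X bb i = 1
    rw [Finset.sum_congr rfl fun i _ => hXb i, h1]
  have hXc : ∀ i, Continuous fun t => X t i := fun i => by
    exact continuous_finsetSum _ fun k _ => continuous_const.mul (continuous_apply k)
  have honec : Continuous one := continuous_finsetSum _ fun i _ => hXc i
  have hlc : ∀ e, Continuous fun t => ∑ i, (a e i : ℝ) * X t i := fun e =>
    continuous_finsetSum _ fun i _ => continuous_const.mul (hXc i)
  have hs1 : 1 ≤ s := by
    by_contra hc
    have h0 : s = 0 := by omega
    have : ∑ i, w i = 0 := by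
      refine Finset.sum_eq_zero fun i _ => ?_
      rw [hw i]
      have : IsEmpty (Fin s) := by rw [h0]; infer_instance
      exact Fintype.sum_empty _
    rw [h1] at this
    exact one_ne_zero this
  -- near the point the open conditions are satisfied
  have hev : ∀ᶠ t in nhds bb, 0 < one t ∧ (∀ e, 0 < ∑ i, (a e i : ℝ) * w i →
      0 < ∑ i, (a e i : ℝ) * X t i) ∧ ∀ i, |X t i / one t - w i| < ε := by
    refine Filter.Eventually.and ?_ (Filter.Eventually.and ?_ ?_)
    · exact continuousAt_const.eventually_lt honec.continuousAt (by rw [honeb]; exact one_pos)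
    · rw [Filter.eventually_all]
      intro e
      by_cases he : 0 < ∑ i, (a e i : ℝ) * w i
      · have : ∀ᶠ t in nhds bb, 0 < ∑ i, (a e i : ℝ) * X t i := by
          refine continuousAt_const.eventually_lt (hlc e).continuousAt ?_
          simp only [hXb]
          exact he
        filter_upwards [this] with t ht _ using ht
      · exact Filter.Eventually.of_forall fun t h => absurd h he
    · rw [Filter.eventually_all]
      intro i
      have hc : ContinuousAt (fun t => |X t i / one t - w i|) bb :=
        (((hXc i).continuousAt.div honec.continuousAt (by rw [honeb]; exact one_ne_zero)).sub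
          continuousAt_const).abs
      refine hc.eventually_lt continuousAt_const ?_
      simp only [hXb, honeb, div_one, sub_self, abs_zero]
      exact hε
  obtain ⟨δ, hδ, hball⟩ := Metric.eventually_nhds_iff.1 hev
  obtain ⟨lam, t, hlam, hlam1, hsum, hnear⟩ := near_rat hs1 bb (half_pos hδ)
  have hmem : ∀ j, dist (fun k => (t j k : ℝ)) bb < δ := by
    intro j
    refine lt_of_le_of_lt ((dist_pi_le_iff (half_pos hδ).le).2 fun k => ?_) (half_lt_self hδ)
    rw [Real.dist_eq]
    exact (hnear j k).le
  have hj := fun j => hball (hmem j)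
  -- rational versions
  let XQ : Fin s × Bool → Fin p → ℚ := fun j i => ∑ k, C i k * t j k
  let oneQ : Fin s × Bool → ℚ := fun j => ∑ i, XQ j i
  have hXQ : ∀ j i, (XQ j i : ℝ) = X (fun k => (t j k : ℝ)) i := by
    intro j i
    change ((∑ k, C i k * t j k : ℚ) : ℝ) = ∑ k, (C i k : ℝ) * (t j k : ℝ)
    push_cast
    rfl
  have honeQ : ∀ j, (oneQ j : ℝ) = one (fun k => (t j k : ℝ)) := by
    intro j
    change ((∑ i, XQ j i : ℚ) : ℝ) = ∑ i, X _ i
    push_cast
    exact Finset.sum_congr rfl fun i _ => hXQ j i
  have hpos : ∀ j, 0 < oneQ j := by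
    intro j
    have h := (hj j).1
    rw [← honeQ j] at h
    exact_mod_cast h
  let e := Fintype.equivFin (Fin s × Bool)
  refine ⟨Fintype.card (Fin s × Bool), fun j => lam (e.symm j) * oneQ (e.symm j),
    fun j i => XQ (e.symm j) i / oneQ (e.symm j), ?_, ?_, ?_, ?_⟩
  · intro j
    exact mul_pos (hlam _) (by exact_mod_cast hpos _)
  · rw [Equiv.sum_comp e.symm fun j => lam j * (oneQ j : ℝ)]
    calc ∑ j, lam j * (oneQ j : ℝ) = ∑ j, ∑ i, ∑ k, lam j * ((C i k : ℝ) * t j k) := by
          refine Finset.sum_congr rfl fun j _ => ?_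
          rw [honeQ]
          change lam j * ∑ i, ∑ k, (C i k : ℝ) * (t j k : ℝ) = _
          rw [Finset.mul_sum]
          exact Finset.sum_congr rfl fun i _ => Finset.mul_sum _ _ _
      _ = ∑ i, ∑ k, (C i k : ℝ) * ∑ j, lam j * t j k := by
          rw [Finset.sum_comm]
          refine Finset.sum_congr rfl fun i _ => ?_
          rw [Finset.sum_comm]
          refine Finset.sum_congr rfl fun k _ => ?_
          rw [Finset.mul_sum]
          exact Finset.sum_congr rfl fun j _ => by ring
      _ = one bb := by
          refine Finset.sum_congr rfl fun i _ => Finset.sum_congr rfl fun k _ => ?_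
          rw [hsum k]
      _ = 1 := honeb
  · intro i
    change w i = ∑ j, lam (e.symm j) * (oneQ (e.symm j) : ℝ) *
      ((XQ (e.symm j) i / oneQ (e.symm j) : ℚ) : ℝ)
    rw [Equiv.sum_comp e.symm fun j => lam j * (oneQ j : ℝ) * ((XQ j i / oneQ j : ℚ) : ℝ)]
    calc w i = ∑ k, (C i k : ℝ) * bb k := hw i
      _ = ∑ k, (C i k : ℝ) * ∑ j, lam j * t j k := by
          exact Finset.sum_congr rfl fun k _ => by rw [hsum k]
      _ = ∑ j, ∑ k, lam j * ((C i k : ℝ) * t j k) := by
          rw [Finset.sum_comm]
          refine Finset.sum_congr rfl fun k _ => ?_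
          rw [Finset.mul_sum]
          exact Finset.sum_congr rfl fun j _ => by ring
      _ = _ := by
          refine Finset.sum_congr rfl fun j _ => ?_
          have h0 : (oneQ j : ℝ) ≠ 0 := by exact_mod_cast (hpos j).ne'
          push_cast
          rw [mul_assoc, mul_div_cancel₀ _ h0, hXQ, ← Finset.mul_sum]
  · intro j
    refine ⟨?_, ?_, ?_⟩
    · change ∑ i, XQ (e.symm j) i / oneQ (e.symm j) = 1
      rw [← Finset.sum_div]
      exact div_self (hpos _).ne'
    · intro e'
      have h2 : ∑ i, a e' i * (XQ (e.symm j) i / oneQ (e.symm j)) =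
          (∑ i, a e' i * XQ (e.symm j) i) / oneQ (e.symm j) := by
        rw [Finset.sum_div]
        exact Finset.sum_congr rfl fun i _ => by ring
      refine ⟨fun hin => ?_, fun hin => ?_⟩
      swap
      · change 0 < ∑ i, a e' i * (XQ (e.symm j) i / oneQ (e.symm j))
        rw [h2]
        refine div_pos ?_ (hpos _)
        have h3 := (hj (e.symm j)).2.1 e' hin
        simp only [← hXQ] at h3
        exact_mod_cast h3
      change 0 ≤ ∑ i, a e' i * (XQ (e.symm j) i / oneQ (e.symm j))
      rw [h2]
      refine div_nonneg ?_ (hpos _).le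
      rcases hin.lt_or_eq with h | h
      · have h3 := (hj (e.symm j)).2.1 e' h
        simp only [← hXQ] at h3
        exact_mod_cast h3.le
      · have h3 := hzero (a e') h.symm
        have h4 : ∑ i, a e' i * XQ (e.symm j) i = ∑ k, (∑ i, a e' i * C i k) * t (e.symm j) k := by
          calc ∑ i, a e' i * XQ (e.symm j) i = ∑ i, ∑ k, a e' i * (C i k * t (e.symm j) k) :=
                Finset.sum_congr rfl fun i _ => Finset.mul_sum _ _ _
            _ = ∑ k, ∑ i, a e' i * (C i k * t (e.symm j) k) := Finset.sum_comm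
            _ = _ := by
                refine Finset.sum_congr rfl fun k _ => ?_
                rw [Finset.sum_mul]
                exact Finset.sum_congr rfl fun i _ => by ring
        rw [h4, Finset.sum_eq_zero fun k _ => by rw [h3 k, zero_mul]]
    · intro i
      have h2 := (hj (e.symm j)).2.2 i
      rw [← hXQ, ← honeQ] at h2
      change |((XQ (e.symm j) i / oneQ (e.symm j) : ℚ) : ℝ) - w i| < ε
      push_cast
      exact h2

end Pool.Agent.U188.RatPoly
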