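import Pool.Agent.U188.IndexFree
import Pool.Agent.U188.RatPoly

/-!
Nef log canonical divisors of toroidal pairs with real boundaries on covers of products of projective
spaces are convex combinations of semiample log canonical divisors of near rational pairs.
-/

set_option autoImplicit false
set_option linter.overlappingInstances false
set_option linter.unusedSectionVars false
set_option maxHeartbeats 1000000

open FF MvPolynomial Pool.Agent.W603.LV Pool.Agent.W602.GT Pool.Agent.W602.Cov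
open Pool.Agent.TH756.PR Pool.Agent.TH122.AB Pool.Agent.TH756.PN
open Pool.Agent.Y169.CH Pool.Agent.Q57.TP Pool.Agent.Q57.TQ Pool.Agent.Q57.GM
open Pool.Agent.Q57.GH Pool.Agent.Q57.FG Pool.Agent.Q57.FH Pool.Agent.Q57.FT Pool.Agent.Q57.GE
open Pool.Agent.U188.IndexFree

namespace Pool.Agent.U188.RealPair

variable {r N R p : ℕ} {n : Fin r → ℕ} {K : Type} [Field K] [Algebra ℂ K]

/-- **Real boundaries.** -/
theorem main (hr : 1 ≤ r) (hn : ∀ i, 1 ≤ n i) (hN : N = ∑ i, n i)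
    {F : ∀ i, MvPolynomial (Fin (n i + 1)) ℂ} {d : Fin r → ℕ} (hd : ∀ i, 1 ≤ d i)
    (hh : ∀ i, (F i).IsHomogeneous (d i)) (hs : ∀ i, SmF (F i))
    {x : ∀ i, Fin (n i + 1) → K} (hx0 : ∀ i, x i 0 ≠ 0)
    (hbas : IsTranscendenceBasis ℂ (aff x)) {m : Fin R → ℕ} (hm : ∀ j, 0 < m j)
    {a : Fin R → Fin r → ℕ} (hdiv : ∀ j i, m j ∣ a j i * d i) {z : Fin R → K}
    (hz : ∀ j, z j ^ m j = ∏ i, (aeval (x i) (F i) / x i 0 ^ d i) ^ a j i)
    (hgen : IntermediateField.adjoin ℂ (Set.range (aff x) ∪ Set.range z) = ⊤)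
    {S : Finset (Finset (Fin r → ℕ))} (hS : Fan m a S) {c : Fin p → (Fin r → ℕ) → ℚ}
    {u : Finset (Fin r → ℕ) → Fin p → Fin r → ℚ}
    (hu : ∀ σ ∈ S, ∀ i v, Adm m a v → InC σ v → 1 - c i v = ∑ k, u σ i k * v k)
    {δ : Fin p → Place ℂ K → ℚ}
    (hδ : ∀ i P, δ i P = cK (c i) (mulQ F d x P) -
      ∑ t, ((-((n t : ℤ) + 1) : ℤ) : ℚ) * minO (x t) P) (w : Fin p → ℝ) (hw : ∑ i, w i = 1) :
    [NefZ N δ w,
      ∀ σ ∈ S, (∀ t, (d t : ℝ) * ∑ i, w i * u σ i t ≤ (d t : ℝ) - n t - 1) ∧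
        ∀ τ ∈ S, ∀ s ∈ τ, 1 - ∑ i, w i * c i s ≤ ∑ k, (∑ i, w i * u σ i k) * (s k : ℝ),
      ∀ ε : ℝ, 0 < ε → ∃ (J : ℕ) (l : Fin J → ℝ) (q : Fin J → Fin p → ℚ), (∀ j, 0 < l j) ∧
        ∑ j, l j = 1 ∧ (∀ i, w i = ∑ j, l j * q j i) ∧ ∀ j, ∑ i, q j i = 1 ∧
          (∀ i, |(q j i : ℝ) - w i| < ε) ∧
          (∀ τ ∈ S, ∀ s ∈ τ, (0 ≤ ∑ i, w i * c i s → 0 ≤ ∑ i, q j i * c i s) ∧
            (∑ i, w i * c i s ≤ 1 → ∑ i, q j i * c i s ≤ 1) ∧
            (∑ i, w i * c i s < 1 → ∑ i, q j i * c i s < 1)) ∧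
          ∀ ρ : ℕ, 1 ≤ ρ → (∀ v, Adm m a v → ∃ z : ℤ, (ρ : ℚ) * ∑ i, q j i * c i v = z) →
            Bpf N (fun _ : Fin 1 => fun P => cK (fun v => ∑ i, q j i * c i v) (mulQ F d x P) -
              ∑ t, ((-((n t : ℤ) + 1) : ℤ) : ℚ) * minO (x t) P) (fun _ => (ρ : ℤ)),
      ∃ (J : ℕ) (l : Fin J → ℝ) (q : Fin J → Fin p → ℚ), (∀ j, 0 < l j) ∧
        ∑ j, l j = 1 ∧ (∀ i, w i = ∑ j, l j * q j i) ∧ ∀ j, ∑ i, q j i = 1 ∧
          ∃ ρ : ℕ, 1 ≤ ρ ∧
            Bpf N (fun _ : Fin 1 => fun P => cK (fun v => ∑ i, q j i * c i v) (mulQ F d x P) -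
              ∑ t, ((-((n t : ℤ) + 1) : ℤ) : ℚ) * minO (x t) P) (fun _ => (ρ : ℤ))].TFAE := by
  classical
  have hlin : LinC m a S (fun i => cK (c i)) fun σ i k => u σ i k - 1 := by
    intro σ hσ i v hv hvσ
    change - cK (c i) v = ∑ k, (u σ i k - 1) * (v k : ℚ)
    unfold cK
    rw [if_neg hv.1]
    have h1 := hu σ hσ i v hv hvσ
    simp only [sub_mul, Finset.sum_sub_distrib, one_mul]
    linarith
  have hc0 : ∀ i : Fin p, cK (c i) 0 = 0 := fun i => if_pos rfl
  have hcone := main_nefcone (N := N) (p := p) hr hn hN hd hh hs hx0 hbas hm hdiv hz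
    hgen hS hc0 hlin hδ
  obtain ⟨N0, h0, -, hcone⟩ := hcone
  have hI : Ineq S d (fun i => cK (c i)) (fun _ : Fin p => fun t : Fin r => -((n t : ℤ) + 1))
      (fun σ i k => u σ i k - 1) w ↔
      ∀ σ ∈ S, (∀ t, (d t : ℝ) * ∑ i, w i * u σ i t ≤ (d t : ℝ) - n t - 1) ∧
        ∀ τ ∈ S, ∀ s ∈ τ, 1 - ∑ i, w i * c i s ≤ ∑ k, (∑ i, w i * u σ i k) * (s k : ℝ) := by
    unfold Ineq
    refine forall₂_congr fun σ hσ => and_congr (forall_congr' fun t => ?_)
      (forall₂_congr fun τ hτ => forall₂_congr fun s hs' => ?_)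
    · have h1 : ∑ i, w i * (((u σ i t - 1 : ℚ)) : ℝ) = ∑ i, w i * (u σ i t : ℝ) - 1 := by
        rw [← hw, ← Finset.sum_sub_distrib]
        exact Finset.sum_congr rfl fun i _ => by push_cast; ring
      have h2 : ∑ i, w i * (((-((n t : ℤ) + 1) : ℤ)) : ℝ) = -((n t : ℝ) + 1) := by
        rw [← Finset.sum_mul, hw]
        push_cast
        ring
      rw [h1, h2]
      constructor
      · intro h
        linarith
      · intro h
        linarith
    · have hsA := hS.adm τ hτ s hs'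
      have h1 : ∑ i, w i * (cK (c i) s : ℝ) = ∑ k, (s k : ℝ) - (1 - ∑ i, w i * (c i s : ℝ)) := by
        have h2 : ∀ i, w i * (cK (c i) s : ℝ) = w i * (∑ k, (s k : ℝ)) - w i + w i * (c i s : ℝ) := by
          intro i
          unfold cK
          rw [if_neg hsA.1]
          push_cast
          ring
        rw [Finset.sum_congr rfl fun i _ => h2 i, Finset.sum_add_distrib, Finset.sum_sub_distrib,
          ← Finset.sum_mul, hw]
        ring
      have h3 : ∑ k, (∑ i, w i * (((u σ i k - 1 : ℚ)) : ℝ)) * (s k : ℝ) =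
          ∑ k, (∑ i, w i * (u σ i k : ℝ)) * (s k : ℝ) - ∑ k, (s k : ℝ) := by
        rw [← Finset.sum_sub_distrib]
        refine Finset.sum_congr rfl fun k _ => ?_
        have h4 : ∑ i, w i * (((u σ i k - 1 : ℚ)) : ℝ) = ∑ i, w i * (u σ i k : ℝ) - 1 := by
          rw [← hw, ← Finset.sum_sub_distrib]
          exact Finset.sum_congr rfl fun i _ => by push_cast; ring
        rw [h4]
        ring
      rw [h1, h3]
      constructor
      · intro h
        linarith
      · intro h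
        linarith
  -- the rational pairs
  have hq : ∀ q : Fin p → ℚ, ∑ i, q i = 1 → ∀ σ ∈ S, ∀ v, Adm m a v → InC σ v →
      1 - (∑ i, q i * c i v) = ∑ k, (∑ i, q i * u σ i k) * v k := by
    intro q hq1 σ hσ v hv hvσ
    calc 1 - ∑ i, q i * c i v = ∑ i, q i * (1 - c i v) := by
          simp only [mul_sub, mul_one, Finset.sum_sub_distrib, hq1]
      _ = ∑ i, ∑ k, q i * (u σ i k * v k) := by
          refine Finset.sum_congr rfl fun i _ => ?_
          rw [hu σ hσ i v hv hvσ, Finset.mul_sum]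
      _ = _ := by
          rw [Finset.sum_comm]
          refine Finset.sum_congr rfl fun k _ => ?_
          rw [Finset.sum_mul]
          exact Finset.sum_congr rfl fun i _ => by ring
  have hF : ∀ q : Fin p → ℚ, ∑ i, q i = 1 → _ := fun q hq1 =>
    IndexFree.main (N := N) hr hn hN hd hh hs hx0 hbas hm hdiv hz hgen hS
      (c := fun v => ∑ i, q i * c i v) (u := fun σ k => ∑ i, q i * u σ i k) (hq q hq1)
      (δ := fun P => cK (fun v => ∑ i, q i * c i v) (mulQ F d x P) -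
        ∑ t, ((-((n t : ℤ) + 1) : ℤ) : ℚ) * minO (x t) P) fun P => rfl
  tfae_have 1 ↔ 2 := by rw [← hI]; exact (hcone w).1
  tfae_have 2 → 3 := by
    intro h ε hε
    let G := S.biUnion id
    let av : (↥S × Fin r) ⊕ ((↥S × ↥G) ⊕ (↥G ⊕ ↥G)) → Fin p → ℚ := fun e i =>
      match e with
      | Sum.inl (σ, t) => ((d t : ℚ) - n t - 1) - d t * u σ i t
      | Sum.inr (Sum.inl (σ, s)) => ∑ k, u σ i k * (s.1 k : ℚ) - (1 - c i s)
      | Sum.inr (Sum.inr (Sum.inl s)) => c i s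
      | Sum.inr (Sum.inr (Sum.inr s)) => 1 - c i s
    obtain ⟨J, l, q, hl, hl1, hwq, hj⟩ := RatPoly.main av w hw hε
    refine ⟨J, l, q, hl, hl1, hwq, fun j => ⟨(hj j).1, (hj j).2.2, ?_, ?_⟩⟩
    · intro τ hτ s hs'
      have hsG : s ∈ G := Finset.mem_biUnion.2 ⟨τ, hτ, hs'⟩
      have h1 := (hj j).2.1 (Sum.inr (Sum.inr (Sum.inl ⟨s, hsG⟩)))
      have h2 := (hj j).2.1 (Sum.inr (Sum.inr (Sum.inr ⟨s, hsG⟩)))
      have e1 : ∑ i, (av (Sum.inr (Sum.inr (Sum.inl ⟨s, hsG⟩))) i : ℝ) * w i =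
          ∑ i, w i * (c i s : ℝ) := Finset.sum_congr rfl fun i _ => mul_comm _ _
      have e2 : ∑ i, (av (Sum.inr (Sum.inr (Sum.inr ⟨s, hsG⟩))) i : ℝ) * w i =
          1 - ∑ i, w i * (c i s : ℝ) := by
        rw [← hw, ← Finset.sum_sub_distrib]
        refine Finset.sum_congr rfl fun i _ => ?_
        change (((1 - c i s : ℚ)) : ℝ) * w i = _
        push_cast
        ring
      have e3 : ∑ i, av (Sum.inr (Sum.inr (Sum.inl ⟨s, hsG⟩))) i * q j i =
          ∑ i, q j i * c i s := Finset.sum_congr rfl fun i _ => mul_comm _ _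
      have e4 : ∑ i, av (Sum.inr (Sum.inr (Sum.inr ⟨s, hsG⟩))) i * q j i =
          1 - ∑ i, q j i * c i s := by
        rw [← (hj j).1, ← Finset.sum_sub_distrib]
        refine Finset.sum_congr rfl fun i _ => ?_
        change (1 - c i s) * q j i = _
        ring
      rw [e1, e3] at h1
      rw [e2, e4] at h2
      refine ⟨h1.1, fun h3 => ?_, fun h3 => ?_⟩
      · have := h2.1 (by linarith)
        linarith
      · have := h2.2 (by linarith)
        linarith
    · have h12 := (hF (q j) (hj j).1).out 1 2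
      refine h12.1 fun σ hσ => ⟨fun t => ?_, fun τ hτ s hs' => ?_⟩
      · have h1 := ((hj j).2.1 (Sum.inl (⟨σ, hσ⟩, t))).1
        have e1 : ∑ i, (av (Sum.inl (⟨σ, hσ⟩, t)) i : ℝ) * w i =
            ((d t : ℝ) - n t - 1) - (d t : ℝ) * ∑ i, w i * (u σ i t : ℝ) := by
          have h2 : ∀ i, (av (Sum.inl (⟨σ, hσ⟩, t)) i : ℝ) * w i =
              w i * ((d t : ℝ) - n t - 1) - (d t : ℝ) * (w i * (u σ i t : ℝ)) := by
            intro i
            change ((((d t : ℚ) - n t - 1) - d t * u σ i t : ℚ) : ℝ) * w i = _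
            push_cast
            ring
          rw [Finset.sum_congr rfl fun i _ => h2 i, Finset.sum_sub_distrib, ← Finset.sum_mul, hw,
            ← Finset.mul_sum, one_mul]
        have e2 : ∑ i, av (Sum.inl (⟨σ, hσ⟩, t)) i * q j i =
            ((d t : ℚ) - n t - 1) - (d t : ℚ) * ∑ i, q j i * u σ i t := by
          have h2 : ∀ i, av (Sum.inl (⟨σ, hσ⟩, t)) i * q j i =
              q j i * ((d t : ℚ) - n t - 1) - (d t : ℚ) * (q j i * u σ i t) := by
            intro i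
            change (((d t : ℚ) - n t - 1) - d t * u σ i t) * q j i = _
            ring
          rw [Finset.sum_congr rfl fun i _ => h2 i, Finset.sum_sub_distrib, ← Finset.sum_mul,
            (hj j).1, ← Finset.mul_sum, one_mul]
        rw [e1, e2] at h1
        have := h1 (by have := (h σ hσ).1 t; linarith)
        linarith
      · have hsG : s ∈ G := Finset.mem_biUnion.2 ⟨τ, hτ, hs'⟩
        have h1 := ((hj j).2.1 (Sum.inr (Sum.inl (⟨σ, hσ⟩, ⟨s, hsG⟩)))).1
        have e1 : ∑ i, (av (Sum.inr (Sum.inl (⟨σ, hσ⟩, ⟨s, hsG⟩))) i : ℝ) * w i =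
            ∑ k, (∑ i, w i * (u σ i k : ℝ)) * (s k : ℝ) - (1 - ∑ i, w i * (c i s : ℝ)) := by
          have h2 : ∀ i, (av (Sum.inr (Sum.inl (⟨σ, hσ⟩, ⟨s, hsG⟩))) i : ℝ) * w i =
              (∑ k, w i * (u σ i k : ℝ) * (s k : ℝ)) - (w i - w i * (c i s : ℝ)) := by
            intro i
            change ((∑ k, u σ i k * (s k : ℚ) - (1 - c i s) : ℚ) : ℝ) * w i = _
            push_cast
            rw [sub_mul, Finset.sum_mul]
            congr 1
            · exact Finset.sum_congr rfl fun k _ => by ring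
            · ring
          rw [Finset.sum_congr rfl fun i _ => h2 i, Finset.sum_sub_distrib, Finset.sum_sub_distrib,
            hw, Finset.sum_comm]
          congr 1
          exact Finset.sum_congr rfl fun k _ => (Finset.sum_mul _ _ _).symm
        have e2 : ∑ i, av (Sum.inr (Sum.inl (⟨σ, hσ⟩, ⟨s, hsG⟩))) i * q j i =
            ∑ k, (∑ i, q j i * u σ i k) * (s k : ℚ) - (1 - ∑ i, q j i * c i s) := by
          have h2 : ∀ i, av (Sum.inr (Sum.inl (⟨σ, hσ⟩, ⟨s, hsG⟩))) i * q j i =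
              (∑ k, q j i * u σ i k * (s k : ℚ)) - (q j i - q j i * c i s) := by
            intro i
            change (∑ k, u σ i k * (s k : ℚ) - (1 - c i s)) * q j i = _
            rw [sub_mul, Finset.sum_mul]
            congr 1
            · exact Finset.sum_congr rfl fun k _ => by ring
            · ring
          rw [Finset.sum_congr rfl fun i _ => h2 i, Finset.sum_sub_distrib, Finset.sum_sub_distrib,
            (hj j).1, Finset.sum_comm]
          congr 1
          exact Finset.sum_congr rfl fun k _ => (Finset.sum_mul _ _ _).symm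
        rw [e1, e2] at h1
        have := h1 (by have := (h σ hσ).2 τ hτ s hs'; linarith)
        linarith
  tfae_have 3 → 4 := by
    intro h
    obtain ⟨J, l, q, hl, hl1, hwq, hj⟩ := h 1 one_pos
    refine ⟨J, l, q, hl, hl1, hwq, fun j => ⟨(hj j).1, ?_⟩⟩
    have h23 := (hF (q j) (hj j).1).out 2 3
    exact h23.1 (hj j).2.2.2
  tfae_have 4 → 2 := by
    rintro ⟨J, l, q, hl, hl1, hwq, hj⟩ σ hσ
    have hsum : ∀ f : Fin p → ℝ, ∑ i, w i * f i = ∑ j, l j * ∑ i, (q j i : ℝ) * f i := by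
      intro f
      calc ∑ i, w i * f i = ∑ i, ∑ j, l j * ((q j i : ℝ) * f i) := by
            refine Finset.sum_congr rfl fun i _ => ?_
            rw [hwq i, Finset.sum_mul]
            exact Finset.sum_congr rfl fun j _ => by ring
        _ = _ := by
            rw [Finset.sum_comm]
            exact Finset.sum_congr rfl fun j _ => (Finset.mul_sum _ _ _).symm
    have hin : ∀ j, ∀ σ ∈ S, (∀ t, (d t : ℚ) * ∑ i, q j i * u σ i t ≤ (d t : ℚ) - n t - 1) ∧
        ∀ τ ∈ S, ∀ s ∈ τ, 1 - ∑ i, q j i * c i s ≤ ∑ k, (∑ i, q j i * u σ i k) * (s k : ℚ) := by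
      intro j
      have h31 := (hF (q j) (hj j).1).out 3 1
      exact h31.1 (hj j).2
    refine ⟨fun t => ?_, fun τ hτ s hs' => ?_⟩
    · rw [hsum, Finset.mul_sum]
      calc ∑ j, (d t : ℝ) * (l j * ∑ i, (q j i : ℝ) * (u σ i t : ℝ))
          = ∑ j, l j * ((d t : ℝ) * ∑ i, (q j i : ℝ) * (u σ i t : ℝ)) :=
            Finset.sum_congr rfl fun j _ => by ring
        _ ≤ ∑ j, l j * ((d t : ℝ) - n t - 1) := by
            refine Finset.sum_le_sum fun j _ => mul_le_mul_of_nonneg_left ?_ (hl j).le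
            have := (hin j σ hσ).1 t
            exact_mod_cast this
        _ = _ := by rw [← Finset.sum_mul, hl1, one_mul]
    · have e1 : 1 - ∑ i, w i * (c i s : ℝ) = ∑ j, l j * (1 - ∑ i, (q j i : ℝ) * (c i s : ℝ)) := by
        rw [hsum]
        simp only [mul_sub, mul_one, Finset.sum_sub_distrib, hl1]
      have e2 : ∑ k, (∑ i, w i * (u σ i k : ℝ)) * (s k : ℝ) =
          ∑ j, l j * ∑ k, (∑ i, (q j i : ℝ) * (u σ i k : ℝ)) * (s k : ℝ) := by
        simp only [hsum, Finset.sum_mul, Finset.mul_sum]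
        rw [Finset.sum_comm]
        refine Finset.sum_congr rfl fun j _ => Finset.sum_congr rfl fun k _ =>
          Finset.sum_congr rfl fun i _ => by ring
      rw [e1, e2]
      refine Finset.sum_le_sum fun j _ => mul_le_mul_of_nonneg_left ?_ (hl j).le
      have := (hin j σ hσ).2 τ hτ s hs'
      exact_mod_cast this
  tfae_finish

end Pool.Agent.U188.RealPair
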