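import Pool.Agent.U188.LcProd
import Pool.Agent.Q57.FH.Top

/-!
Multigraded adjoint rings of toroidal log canonical pairs on covers of products of projective spaces.
-/

set_option autoImplicit false
set_option linter.overlappingInstances false
set_option linter.unusedSectionVars false
set_option maxHeartbeats 1000000

open FF MvPolynomial Pool.Agent.W603.LV Pool.Agent.W602.GT Pool.Agent.W602.Cov
open Pool.Agent.TH756.PR Pool.Agent.TH122.AB Pool.Agent.TH756.PN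
open Pool.Agent.Y169.CH Pool.Agent.Q57.TP Pool.Agent.Q57.TQ Pool.Agent.Q57.GM
open Pool.Agent.Q57.GH Pool.Agent.Q57.FG Pool.Agent.Q57.FH

namespace Pool.Agent.U188.Rings

variable {r N R p : ℕ} {n : Fin r → ℕ} {K : Type} [Field K] [Algebra ℂ K]

/-- finitely many inequalities imply the others, for several functions -/
theorem fg_multi {A : (Fin r → ℕ) → Prop} {S : Finset (Finset (Fin r → ℕ))}
    {c : Fin p → (Fin r → ℕ) → ℚ} (hadm : ∀ σ ∈ S, ∀ s ∈ σ, A s)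
    (hcov : ∀ v, A v → ∃ σ ∈ S, Fans.InC σ v)
    (hlin : ∀ i, ∀ σ ∈ S, ∃ u : Fin r → ℚ, ∀ v, A v → Fans.InC σ v → 1 - c i v = ∑ k, u k * v k) :
    ∃ T : Finset (Fin r → ℕ), (∀ s ∈ T, A s) ∧ ∀ v, A v →
      ∃ w : (Fin r → ℕ) → ℚ, (∀ s, 0 ≤ w s) ∧ (∀ k, ∑ s ∈ T, w s * s k ≤ v k) ∧
        ∀ i, 1 - c i v ≤ ∑ s ∈ T, w s * (1 - c i s) := by
  classical
  refine ⟨S.biUnion id, fun s hs => ?_, fun v hv => ?_⟩
  · obtain ⟨σ, hσ, hsσ⟩ := Finset.mem_biUnion.1 hs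
    exact hadm σ hσ s hsσ
  · obtain ⟨σ, hσ, w, hw, hwv⟩ := hcov v hv
    have hsub : σ ⊆ S.biUnion id := fun s hs => Finset.mem_biUnion.2 ⟨σ, hσ, hs⟩
    have hsum : ∀ f : (Fin r → ℕ) → ℚ, ∑ s ∈ S.biUnion id, (if s ∈ σ then w s else 0) * f s =
        ∑ s ∈ σ, w s * f s := by
      intro f
      rw [← Finset.sum_subset hsub]
      · exact Finset.sum_congr rfl fun s hs => by rw [if_pos hs]
      · intro s _ hs
        rw [if_neg hs, zero_mul]
    refine ⟨fun s => if s ∈ σ then w s else 0, fun s => ?_, fun k => ?_, fun i => ?_⟩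
    · dsimp only
      split_ifs
      · exact hw s
      · exact le_rfl
    · rw [hsum fun s => (s k : ℚ), hwv k]
    · dsimp only
      obtain ⟨u, hu⟩ := hlin i σ hσ
      rw [hsum fun s => 1 - c i s, hu v hv ⟨w, hw, hwv⟩]
      have h1 : ∀ s ∈ σ, w s * (1 - c i s) = ∑ k, u k * (w s * s k) := by
        intro s hs
        rw [hu s (hadm σ hσ s hs) (Fans.inC_mem hs), Finset.mul_sum]
        exact Finset.sum_congr rfl fun k _ => by ring
      rw [Finset.sum_congr rfl h1, Finset.sum_comm]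
      refine le_of_eq (Finset.sum_congr rfl fun k _ => ?_)
      rw [hwv k, Finset.mul_sum]

/-- **The adjoint ring is finitely generated.** -/
theorem main (hr : 1 ≤ r) (hn : ∀ i, 1 ≤ n i) (hN : N = ∑ i, n i)
    {F : ∀ i, MvPolynomial (Fin (n i + 1)) ℂ} {d : Fin r → ℕ} (hd : ∀ i, 1 ≤ d i)
    (hh : ∀ i, (F i).IsHomogeneous (d i)) (hs : ∀ i, SmF (F i))
    {x : ∀ i, Fin (n i + 1) → K} (hx0 : ∀ i, x i 0 ≠ 0)
    (hbas : IsTranscendenceBasis ℂ (aff x)) {m : Fin R → ℕ} (hm : ∀ j, 0 < m j)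
    {a : Fin R → Fin r → ℕ} (hdiv : ∀ j i, m j ∣ a j i * d i) {z : Fin R → K}
    (hz : ∀ j, z j ^ m j = ∏ i, (aeval (x i) (F i) / x i 0 ^ d i) ^ a j i)
    (hgen : IntermediateField.adjoin ℂ (Set.range (aff x) ∪ Set.range z) = ⊤)
    {S : Finset (Finset (Fin r → ℕ))} {c : Fin p → (Fin r → ℕ) → ℚ} (hc0 : ∀ i, c i 0 = 0)
    (hadmS : ∀ σ ∈ S, ∀ s ∈ σ, Adm m a s) (hcov : ∀ v, Adm m a v → ∃ σ ∈ S, Fans.InC σ v)
    (hlin : ∀ i, ∀ σ ∈ S, ∃ u : Fin r → ℚ, ∀ v, Adm m a v → Fans.InC σ v →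
      1 - c i v = ∑ k, u k * v k)
    (hlc : ∀ i, ∀ σ ∈ S, ∀ s ∈ σ, c i s ≤ 1)
    {δ : Fin p → Place ℂ K → ℚ} (hδ : ∀ i P, δ i P = c i (mulQ F d x P)) :
    (secRing N δ).FG := by
  classical
  have hadm : ∀ P : Place ℂ K, mulQ F d x P = 0 ∨ Adm m a (mulQ F d x P) := by
    obtain ⟨N', e, Φ, C, x', F', hN', hΦ, hCM, hCa, H, hvv, -⟩ :=
      Pool.Agent.Q57.FT.setup (N := N) hr hn hN hd hh hs hx0 hbas hm hdiv hz hgen
    intro P
    obtain ⟨α, l, v, hdat⟩ := H.exists_dat P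
    have h1 := hvv P v (hdat.multH H)
    by_cases hv : v = 0
    · left
      rw [← h1, hv]
    · right
      have h2 := hdat.adm H hv
      rw [hCM, hCa, h1] at h2
      exact h2
  obtain ⟨c', hc'⟩ : ∃ c' : Fin p → (Fin r → ℕ) → ℚ,
    c' = fun i v => if Adm m a v then c i v else 0 := ⟨_, rfl⟩
  have hcA : ∀ i v, Adm m a v → c' i v = c i v := fun i v hv => by
    rw [hc']
    exact if_pos hv
  have hlin' : ∀ i, ∀ σ ∈ S, ∃ u : Fin r → ℚ, ∀ v, Adm m a v → Fans.InC σ v →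
      1 - c' i v = ∑ k, u k * v k := fun i σ hσ => by
    obtain ⟨u, hu⟩ := hlin i σ hσ
    exact ⟨u, fun v hv hvσ => by rw [hcA i v hv]; exact hu v hv hvσ⟩
  have hS : ∀ i, Fans.PL (Adm m a) S (c' i) := fun i => ⟨hadmS, hcov, hlin' i⟩
  have hS0 : ∀ i, Fans.PL (Adm m a) S (c i) := fun i => ⟨hadmS, hcov, hlin i⟩
  have hc'0 : ∀ i, c' i 0 = 0 := by
    intro i
    rw [hc']
    exact if_neg fun h => h.1 rfl
  have hc'1 : ∀ i v, c' i v ≤ 1 := by
    intro i v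
    by_cases hv : Adm m a v
    · rw [hcA i v hv]
      exact (hS0 i).le_one (hlc i) hv
    · rw [hc']
      dsimp only
      rw [if_neg hv]
      norm_num
  refine main_fgh hr hn hN hd hh hs hx0 hbas hm hdiv hz hgen hc'0 hc'1
    (fun i v k hk hv => ((hS i).mul LcProd.adm_smul v k hk hv).le)
    (fg_multi hadmS hcov hlin') (fun i P => ?_)
  rw [hδ]
  rcases hadm P with h | h
  · rw [h, hc0, hc'0]
  · rw [hcA _ _ h]

end Pool.Agent.U188.Rings
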