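import Pool.Agent.N183.U6.Mt

/-!
# Tate tensors in rational subspaces of the space of tensors
-/

set_option autoImplicit false

namespace Pool.Agent.U188.SubTate

open Module Pool.Agent.Y90 Pool.Agent.R915 Pool.Agent.N183.U5 Pool.Agent.N183.U6 TensorProduct
open Pool.Agent.Y224.TS.St (IsTateModule)

section

variable {H T : Type} [AddCommGroup H] [Module ℚ H] [AddCommGroup T] [Module ℂ T] {κ : Type}

theorem hodge_smul (per : H →+ T) (a : ℚ) {f : MultilinearMap ℚ (fun _ : κ => H) ℚ}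
    (h : IsHodgeTensor per f) : IsHodgeTensor per (a • f) := by
  obtain ⟨ψ, h1, h2⟩ := h
  refine ⟨(a : ℝ) • ψ, fun v => ?_, fun z hz u => ?_⟩
  · rw [smul_apply, h1 v, smul_apply, smul_eq_mul, smul_eq_mul]
    push_cast
    rfl
  · rw [smul_apply, smul_apply, h2 z hz u]

theorem hodge_add (per : H →+ T) {f g : MultilinearMap ℚ (fun _ : κ => H) ℚ}
    (h : IsHodgeTensor per f) (h' : IsHodgeTensor per g) : IsHodgeTensor per (f + g) := by
  obtain ⟨ψ, h1, h2⟩ := h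
  obtain ⟨ψ', h1', h2'⟩ := h'
  refine ⟨ψ + ψ', fun v => ?_, fun z hz u => ?_⟩
  · rw [add_apply, h1 v, h1' v, add_apply]
    push_cast
    rfl
  · rw [add_apply, add_apply, h2 z hz u, h2' z hz u]

theorem hodge_zero (per : H →+ T) :
    IsHodgeTensor per (0 : MultilinearMap ℚ (fun _ : κ => H) ℚ) :=
  ⟨0, fun v => by simp, fun z _ u => by simp⟩

/-- the space of the Hodge tensors -/
def hodgeSpace (per : H →+ T) (κ : Type) : Submodule ℚ (MultilinearMap ℚ (fun _ : κ => H) ℚ) where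
  carrier := {f | IsHodgeTensor per f}
  add_mem' := fun h h' => hodge_add per h h'
  zero_mem' := hodge_zero per
  smul_mem' := fun a _ h => hodge_smul per a h

end

/-- The intersection of two rational subspaces of functions and extension of scalars: a function which
is a combination over `K` of functions of `U` and also of functions of `W` is a combination of
functions of both. -/
theorem inter {K V T : Type} [Field K] [CharZero K] [AddCommGroup T] [Module ℚ T]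
    (ev : T →ₗ[ℚ] (V → ℚ)) (hev : Function.Injective ev) (U W : Submodule ℚ T) {n n' : ℕ}
    (c : Fin n → K) (f : Fin n → T) (hf : ∀ j, f j ∈ U) (d : Fin n' → K) (w : Fin n' → T)
    (hw : ∀ j, w j ∈ W)
    (h : ∀ v, ∑ j, c j * ((ev (f j) v : ℚ) : K) = ∑ j, d j * ((ev (w j) v : ℚ) : K)) :
    ∃ (N : ℕ) (b : Fin N → K) (g : Fin N → T), (∀ j, g j ∈ U ⊓ W) ∧
      ∀ v, ∑ j, c j * ((ev (f j) v : ℚ) : K) = ∑ j, b j * ((ev (g j) v : ℚ) : K) := by
  classical
  let β := Basis.ofVectorSpace ℚ K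
  let S : Finset (Basis.ofVectorSpaceIndex ℚ K) := Finset.univ.biUnion fun j => (β.repr (c j)).support
  let F : Basis.ofVectorSpaceIndex ℚ K → T := fun i => ∑ j, β.repr (c j) i • f j
  have hmul : ∀ (a : K) (r : ℚ) (i), β.repr (a * (r : K)) i = r * β.repr a i := by
    intro a r i
    have h1 : a * (r : K) = r • a := by
      rw [Rat.smul_def, mul_comm]
    rw [h1, map_smul, Finsupp.smul_apply, smul_eq_mul]
  have hFv : ∀ i v, ev (F i) v = β.repr (∑ j, c j * ((ev (f j) v : ℚ) : K)) i := by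
    intro i v
    change ev (∑ j, β.repr (c j) i • f j) v = _
    rw [map_sum, Finset.sum_apply, map_sum, Finsupp.finsetSum_apply]
    refine Finset.sum_congr rfl fun j _ => ?_
    rw [map_smul, Pi.smul_apply, smul_eq_mul, hmul, mul_comm]
  have hFW : ∀ i, F i = ∑ j, β.repr (d j) i • w j := by
    intro i
    apply hev
    funext v
    rw [hFv, h v, map_sum, Finsupp.finsetSum_apply, map_sum, Finset.sum_apply]
    refine Finset.sum_congr rfl fun j _ => ?_
    rw [map_smul, Pi.smul_apply, smul_eq_mul, hmul, mul_comm]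
  have hmem : ∀ i, F i ∈ U ⊓ W := by
    intro i
    refine ⟨Submodule.sum_mem _ fun j _ => U.smul_mem _ (hf j), ?_⟩
    rw [hFW i]
    exact Submodule.sum_mem _ fun j _ => W.smul_mem _ (hw j)
  let e := Fintype.equivFin S
  refine ⟨Fintype.card S, fun j => β (e.symm j).1, fun j => F (e.symm j).1, fun j => hmem _,
    fun v => ?_⟩
  have hc : ∀ j, c j = ∑ i ∈ S, ((β.repr (c j) i : ℚ) : K) * β i := by
    intro j
    have h1 := β.linearCombination_repr (c j)
    rw [Finsupp.linearCombination_apply] at h1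
    have h2 : (β.repr (c j)).sum (fun i a => a • β i) = ∑ i ∈ S, β.repr (c j) i • β i :=
      Finsupp.sum_of_support_subset _ (fun i hi =>
        Finset.mem_biUnion.2 ⟨j, Finset.mem_univ _, hi⟩) _ (fun i _ => zero_smul _ _)
    rw [h2] at h1
    conv_lhs => rw [← h1]
    exact Finset.sum_congr rfl fun i _ => by rw [Rat.smul_def]
  calc ∑ j, c j * ((ev (f j) v : ℚ) : K)
      = ∑ j, ∑ i ∈ S, β i * (((β.repr (c j) i * ev (f j) v : ℚ)) : K) := by
        refine Finset.sum_congr rfl fun j _ => ?_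
        conv_lhs => rw [hc j, Finset.sum_mul]
        refine Finset.sum_congr rfl fun i _ => ?_
        push_cast
        ring
    _ = ∑ i ∈ S, β i * ((ev (F i) v : ℚ) : K) := by
        rw [Finset.sum_comm]
        refine Finset.sum_congr rfl fun i _ => ?_
        have h2 : ev (F i) v = ∑ j, β.repr (c j) i * ev (f j) v := by
          change ev (∑ j, β.repr (c j) i • f j) v = _
          rw [map_sum, Finset.sum_apply]
          refine Finset.sum_congr rfl fun j _ => ?_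
          rw [map_smul, Pi.smul_apply, smul_eq_mul]
        rw [h2]
        push_cast
        rw [Finset.mul_sum]
    _ = ∑ i : S, β i.1 * ((ev (F i.1) v : ℚ) : K) := (Finset.sum_coe_sort S _).symm
    _ = _ := (Equiv.sum_comp e.symm fun i : S => β i.1 * ((ev (F i.1) v : ℚ) : K)).symm

/-- **Tate tensors** in a rational subspace. -/
theorem tate_sub (X : AV) (E : X.H → X.H → ℚ) (hE : Pool.Agent.Y90.St.IsPolarization X.per E)
    (ℓ : ℕ) [Fact ℓ.Prime] [Algebra ℚ_[ℓ] ℂ] [Algebra.IsAlgebraic ℚ_[ℓ] ℂ]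
    {Γ : Type} [Group Γ] (ρ : Representation ℚ_[ℓ] Γ (ℚ_[ℓ] ⊗[ℚ] X.H)) (χ : Γ →* ℚ_[ℓ])
    (hρ : IsTateModule X.per E ρ χ)
    (hX : ∀ Y, IsFactor Y X → GoodTwo X ρ Y)
    (n : ℂ → ℕ) (hn : IsCentreMult X n) (hs : IsSeparated n) {m : ℕ}
    (W : Submodule ℚ (MultilinearMap ℚ (fun _ : Fin m × Fin 2 => X.H) ℚ))
    (φ : MultilinearMap ℚ_[ℓ] (fun _ : Fin m × Fin 2 => ℚ_[ℓ] ⊗[ℚ] X.H) ℚ_[ℓ])
    (hφ : ∃ Δ : Subgroup Γ, Δ.FiniteIndex ∧ ∀ g ∈ Δ, ∀ v : Fin m × Fin 2 → ℚ_[ℓ] ⊗[ℚ] X.H,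
      φ (fun k => ρ g (v k)) = χ g ^ m * φ v)
    (hW : ∃ (N : ℕ) (d : Fin N → ℚ_[ℓ])
      (w : Fin N → MultilinearMap ℚ (fun _ : Fin m × Fin 2 => X.H) ℚ), (∀ j, w j ∈ W) ∧
        ∀ v : Fin m × Fin 2 → X.H, φ (fun k => (1 : ℚ_[ℓ]) ⊗ₜ[ℚ] v k) =
          ∑ j, d j * ((w j v : ℚ) : ℚ_[ℓ])) :
    ∃ (N : ℕ) (c : Fin N → ℚ_[ℓ]) (f : Fin N → MultilinearMap ℚ (fun _ : Fin m × Fin 2 => X.H) ℚ),
      (∀ j, IsHodgeTensor X.per (f j) ∧ f j ∈ W) ∧
        ∀ v : Fin m × Fin 2 → X.H, φ (fun k => (1 : ℚ_[ℓ]) ⊗ₜ[ℚ] v k) =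
          ∑ j, c j * ((f j v : ℚ) : ℚ_[ℓ]) := by
  obtain ⟨N, c, f, hf, h⟩ := Pool.Agent.N183.U6.tate_tensor X hE hX hn hs hρ φ hφ
  obtain ⟨N', d, w, hw, h'⟩ := hW
  let ev : MultilinearMap ℚ (fun _ : Fin m × Fin 2 => X.H) ℚ →ₗ[ℚ]
      ((Fin m × Fin 2 → X.H) → ℚ) :=
    { toFun := fun f v => f v
      map_add' := fun f g => rfl
      map_smul' := fun a f => rfl }
  obtain ⟨N2, b, g, hg, h2⟩ := inter (K := ℚ_[ℓ]) ev (fun f g h => MultilinearMap.ext fun v =>
    congrFun h v) (hodgeSpace X.per (Fin m × Fin 2)) W c f hf d w hw fun v => by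
      change ∑ j, c j * ((f j v : ℚ) : ℚ_[ℓ]) = ∑ j, d j * ((w j v : ℚ) : ℚ_[ℓ])
      rw [← h v, h' v]
  exact ⟨N2, b, g, fun j => hg j, fun v => (h v).trans (h2 v)⟩

end Pool.Agent.U188.SubTate
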